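import Pool.Agent.Lib.MP_d80832_gt.Tree

set_option autoImplicit false

/-!
Finite product selection lemma and its compactness version.
-/

namespace Pool.Agent.Lib.MP_d80832_gt

open Finset

/-- reversed initial segments of elements of the product of the `C i` -/
def D (C : ℕ → Finset Node) : ℕ → Finset (List Node)
  | 0 => {[]}
  | n + 1 => ((C n) ×ˢ (D C n)).image (fun q => List.cons q.1 q.2)

/-- product weight of a reversed initial segment -/
noncomputable def wt (m : ℕ → Node → ℝ) : List Node → ℝ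
  | [] => 1
  | c :: u => m u.length c * wt m u

/-- reversed initial segment of a sequence -/
def trace (y : ℕ → Node) : ℕ → List Node
  | 0 => []
  | n + 1 => y n :: trace y n

lemma mem_D_succ {C : ℕ → Finset Node} {n : ℕ} {c : Node} {u : List Node} :
    c :: u ∈ D C (n + 1) ↔ c ∈ C n ∧ u ∈ D C n := by
  simp only [D, mem_image, mem_product, Prod.exists]
  constructor
  · rintro ⟨a, b, ⟨ha, hb⟩, h⟩
    obtain ⟨rfl, rfl⟩ := List.cons.inj h
    exact ⟨ha, hb⟩
  · rintro ⟨ha, hb⟩
    exact ⟨c, u, ⟨ha, hb⟩, rfl⟩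

lemma D_length {C : ℕ → Finset Node} {n : ℕ} {u : List Node} (h : u ∈ D C n) :
    u.length = n := by
  induction n generalizing u with
  | zero => simp [D] at h; simp [h]
  | succ n ih =>
    simp only [D, mem_image, mem_product, Prod.exists] at h
    obtain ⟨a, b, ⟨_, hb⟩, rfl⟩ := h
    simp [ih hb]

lemma sum_D_succ (C : ℕ → Finset Node) (n : ℕ) (f : List Node → ℝ) :
    ∑ v ∈ D C (n + 1), f v = ∑ c ∈ C n, ∑ u ∈ D C n, f (c :: u) := by
  change ∑ v ∈ ((C n) ×ˢ (D C n)).image (fun q => List.cons q.1 q.2), f v = _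
  rw [Finset.sum_image, Finset.sum_product]
  rintro ⟨a, b⟩ _ ⟨c, d⟩ _ h
  obtain ⟨h1, h2⟩ := List.cons.inj h
  exact Prod.ext h1 h2

lemma card_D_succ (C : ℕ → Finset Node) (n : ℕ) :
    (D C (n + 1)).card = (C n).card * (D C n).card := by
  rw [D, Finset.card_image_of_injective, Finset.card_product]
  rintro ⟨a, b⟩ ⟨c, d⟩ h
  obtain ⟨h1, h2⟩ := List.cons.inj h
  exact Prod.ext h1 h2

lemma D_congr {C C' : ℕ → Finset Node} {n : ℕ} (h : ∀ l < n, C l = C' l) : D C n = D C' n := by
  induction n with
  | zero => rfl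
  | succ n ih =>
    rw [D, D, ih fun l hl => h l (by omega), h n (by omega)]

lemma trace_congr {y z : ℕ → Node} {n : ℕ} (h : ∀ l < n, y l = z l) : trace y n = trace z n := by
  induction n with
  | zero => rfl
  | succ n ih =>
    rw [trace, trace, ih fun l hl => h l (by omega), h n (by omega)]

lemma trace_inj {y z : ℕ → Node} {n : ℕ} (h : trace y n = trace z n) : ∀ l < n, y l = z l := by
  induction n with
  | zero => intro l hl; omega
  | succ n ih =>
    intro l hl
    obtain ⟨h1, h2⟩ := List.cons.inj h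
    rcases Nat.lt_succ_iff_lt_or_eq.1 hl with hl | rfl
    · exact ih h2 l hl
    · exact h1

lemma trace_mem_D {C : ℕ → Finset Node} {y : ℕ → Node} {n : ℕ} :
    trace y n ∈ D C n ↔ ∀ l < n, y l ∈ C l := by
  induction n with
  | zero => simp [trace, D]
  | succ n ih =>
    rw [trace, mem_D_succ, ih]
    constructor
    · rintro ⟨h1, h2⟩ l hl
      rcases Nat.lt_succ_iff_lt_or_eq.1 hl with hl | rfl
      · exact h2 l hl
      · exact h1
    · intro h
      exact ⟨h n (by omega), fun l hl => h l (by omega)⟩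

section

variable {C : ℕ → Finset Node} {m : ℕ → Node → ℝ}

lemma wt_nonneg (hm0 : ∀ i x, 0 ≤ m i x) (u : List Node) : 0 ≤ wt m u := by
  induction u with
  | nil => simp [wt]
  | cons c u ih => exact mul_nonneg (hm0 _ _) ih

lemma wt_total (hm1 : ∀ i, ∑ x ∈ C i, m i x = 1) (n : ℕ) : ∑ u ∈ D C n, wt m u = 1 := by
  induction n with
  | zero => simp [D, wt]
  | succ n ih =>
    rw [sum_D_succ]
    have : ∀ c ∈ C n, ∑ u ∈ D C n, wt m (c :: u) = m n c := by
      intro c _
      have : ∀ u ∈ D C n, wt m (c :: u) = m n c * wt m u := by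
        intro u hu
        rw [wt, D_length hu]
      rw [Finset.sum_congr rfl this, ← Finset.mul_sum, ih, mul_one]
    rw [Finset.sum_congr rfl this, hm1]

lemma wt_le_one (hm0 : ∀ i x, 0 ≤ m i x) (hm1 : ∀ i, ∑ x ∈ C i, m i x = 1) {n : ℕ}
    {T : Finset (List Node)} (hT : T ⊆ D C n) : ∑ u ∈ T, wt m u ≤ 1 := by
  rw [← wt_total (C := C) hm1 n]
  exact Finset.sum_le_sum_of_subset_of_nonneg hT fun u _ _ => wt_nonneg hm0 u

/-- Finite product selection lemma. -/
lemma finite_selection (hm0 : ∀ i x, 0 ≤ m i x) (hm1 : ∀ i, ∑ x ∈ C i, m i x = 1)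
    (η : ℕ → ℝ) (hη : ∀ i, 0 ≤ η i) (n : ℕ) :
    ∀ T : Finset (List Node), T ⊆ D C n → ∑ l ∈ range n, η l < ∑ v ∈ T, wt m v →
      ∃ C' : ℕ → Finset Node,
        (∀ l < n, C' l ⊆ C l ∧ η l / 2 ^ (D C l).card ≤ ∑ x ∈ C' l, m l x) ∧ D C' n ⊆ T := by
  classical
  induction n with
  | zero =>
    intro T hT h
    refine ⟨C, fun l hl => absurd hl (by omega), ?_⟩
    simp only [range_zero, sum_empty] at h
    have hne : T.Nonempty := by
      by_contra hne
      rw [Finset.not_nonempty_iff_eq_empty] at hne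
      rw [hne] at h; simp at h
    obtain ⟨u, hu⟩ := hne
    have : u = [] := by have := hT hu; simpa [D] using this
    subst this
    intro v hv
    have : v = [] := by simpa [D] using hv
    rw [this]; exact hu
  | succ n ih =>
    intro T hT h
    set s : ℝ := ∑ l ∈ range n, η l with hs
    rw [sum_range_succ, ← hs] at h
    set Γ := (D C n).powerset with hΓ
    set sec : Node → Finset (List Node) := fun c => (D C n).filter (fun u => c :: u ∈ T) with hsec
    set W : Finset (List Node) → ℝ := fun κ => ∑ u ∈ κ, wt m u with hW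
    set M : Finset (List Node) → ℝ := fun κ => ∑ c ∈ (C n).filter (fun c => sec c = κ), m n c
      with hM
    have hs0 : 0 ≤ s := Finset.sum_nonneg fun i _ => hη i
    have hM0 : ∀ κ, 0 ≤ M κ := fun κ => Finset.sum_nonneg fun c _ => hm0 _ _
    have hsecΓ : ∀ c ∈ C n, sec c ∈ Γ := by
      intro c _
      rw [hΓ, mem_powerset]
      exact Finset.filter_subset _ _
    -- decomposition of the weight of T
    have hT1 : ∑ v ∈ T, wt m v = ∑ c ∈ C n, m n c * W (sec c) := by
      have h1 : ∑ v ∈ T, wt m v = ∑ v ∈ D C (n + 1), if v ∈ T then wt m v else 0 := by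
        rw [← Finset.sum_filter]
        congr 1
        ext v; simp only [mem_filter]
        exact ⟨fun hv => ⟨hT hv, hv⟩, fun hv => hv.2⟩
      rw [h1, sum_D_succ]
      apply Finset.sum_congr rfl
      intro c _
      simp only [hW, hsec]
      rw [Finset.sum_filter, Finset.mul_sum]
      apply Finset.sum_congr rfl
      intro u hu
      by_cases hcu : c :: u ∈ T
      · rw [if_pos hcu, if_pos hcu, wt, D_length hu]
      · rw [if_neg hcu, if_neg hcu, mul_zero]
    have hT2 : ∑ c ∈ C n, m n c * W (sec c) = ∑ κ ∈ Γ, M κ * W κ := by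
      rw [← Finset.sum_fiberwise_of_maps_to hsecΓ]
      apply Finset.sum_congr rfl
      intro κ _
      simp only [hM]
      rw [Finset.sum_mul]
      apply Finset.sum_congr rfl
      intro c hc
      rw [(Finset.mem_filter.1 hc).2]
    have hT3 : ∑ κ ∈ Γ, M κ = 1 := by
      rw [← hm1 n, ← Finset.sum_fiberwise_of_maps_to hsecΓ]
    -- pigeonhole
    obtain ⟨κ, hκΓ, hκW, hκM⟩ : ∃ κ ∈ Γ, s < W κ ∧ η n / 2 ^ (D C n).card ≤ M κ := by
      by_contra hcon
      push Not at hcon
      have hb : ∀ κ ∈ Γ, M κ * W κ ≤ M κ * s + η n / 2 ^ (D C n).card := by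
        intro κ hκ
        have hW1 : W κ ≤ 1 := wt_le_one hm0 hm1 (mem_powerset.1 hκ)
        have hW0 : 0 ≤ W κ := Finset.sum_nonneg fun u _ => wt_nonneg hm0 u
        have hη' : 0 ≤ η n / 2 ^ (D C n).card := div_nonneg (hη n) (by positivity)
        rcases le_or_gt (W κ) s with h1 | h1
        · have := mul_le_mul_of_nonneg_left h1 (hM0 κ)
          linarith
        · have h2 := hcon κ hκ h1
          have h3 : M κ * W κ ≤ M κ * 1 := mul_le_mul_of_nonneg_left hW1 (hM0 κ)
          have h4 : 0 ≤ M κ * s := mul_nonneg (hM0 κ) hs0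
          linarith
      have := Finset.sum_le_sum hb
      rw [Finset.sum_add_distrib, ← Finset.sum_mul, hT3, one_mul, Finset.sum_const,
        hΓ, Finset.card_powerset, nsmul_eq_mul] at this
      rw [hT1, hT2] at h
      have h5 : ((2 ^ (D C n).card : ℕ) : ℝ) * (η n / 2 ^ (D C n).card) = η n := by
        push_cast
        field_simp
      rw [h5] at this
      linarith
    obtain ⟨C', hC', hD⟩ := ih κ (mem_powerset.1 hκΓ) hκW
    refine ⟨Function.update C' n ((C n).filter (fun c => sec c = κ)), ?_, ?_⟩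
    · intro l hl
      rcases Nat.lt_succ_iff_lt_or_eq.1 hl with hl | rfl
      · rw [Function.update_of_ne (by omega)]
        exact hC' l hl
      · rw [Function.update_self]
        exact ⟨Finset.filter_subset _ _, hκM⟩
    · intro v hv
      match v with
      | [] => have := D_length hv; simp at this
      | c :: u =>
        rw [mem_D_succ, Function.update_self] at hv
        obtain ⟨hc, hu⟩ := hv
        rw [D_congr (C' := C') (fun l hl => Function.update_of_ne (by omega) _ _)] at hu
        have hu' := hD hu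
        rw [← (Finset.mem_filter.1 hc).2] at hu'
        exact (Finset.mem_filter.1 hu').2

/-- Compactness version: a closed set all of whose traces are large contains a large product. -/
lemma closed_selection (hm0 : ∀ i x, 0 ≤ m i x) (hm1 : ∀ i, ∑ x ∈ C i, m i x = 1)
    (η : ℕ → ℝ) (hη : ∀ i, 0 < η i) (K : Set (ℕ → Node)) (hK : IsClosed K)
    (h : ∀ n, ∃ T : Finset (List Node), T ⊆ D C n ∧ (∀ u ∈ T, ∃ y ∈ K, trace y n = u) ∧
      ∑ l ∈ range n, η l < ∑ v ∈ T, wt m v) :
    ∃ C' : ℕ → Finset Node,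
        (∀ l, C' l ⊆ C l ∧ η l / 2 ^ (D C l).card ≤ ∑ x ∈ C' l, m l x) ∧
        ∀ y : ℕ → Node, (∀ l, y l ∈ C' l) → y ∈ K := by
  classical
  choose T hTD hTK hTη using h
  have hsel := fun n => finite_selection hm0 hm1 η (fun i => (hη i).le) n (T n) (hTD n) (hTη n)
  choose G hG hGD using hsel
  let U : Ultrafilter ℕ := Filter.hyperfilter ℕ
  have hU : (U : Filter ℕ) ≤ Filter.atTop := by
    rw [← Nat.cofinite_eq_atTop]; exact Filter.hyperfilter_le_cofinite
  let C' : ℕ → Finset Node := fun l => (C l).filter (fun c => ∀ᶠ N in (U : Filter ℕ), c ∈ G N l)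
  have hlarge : ∀ l, ∀ᶠ N in (U : Filter ℕ), l < N :=
    fun l => hU (Filter.eventually_gt_atTop l)
  have hC' : ∀ l, ∀ᶠ N in (U : Filter ℕ), G N l = C' l := by
    intro l
    have h1 : ∀ᶠ N in (U : Filter ℕ), ∀ c ∈ C l, (c ∈ G N l ↔ c ∈ C' l) := by
      rw [Filter.eventually_all_finset]
      intro c hc
      by_cases hcc : ∀ᶠ N in (U : Filter ℕ), c ∈ G N l
      · filter_upwards [hcc] with N hN
        simp only [C', mem_filter]
        exact ⟨fun _ => ⟨hc, hcc⟩, fun _ => hN⟩
      · have := Ultrafilter.eventually_not.2 hcc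
        filter_upwards [this] with N hN
        simp only [C', mem_filter]
        exact ⟨fun h => absurd h hN, fun h => absurd h.2 hcc⟩
    filter_upwards [h1, hlarge l] with N hN hlN
    ext c
    constructor
    · intro hc
      exact (hN c ((hG N l hlN).1 hc)).1 hc
    · intro hc
      exact (hN c (Finset.mem_filter.1 hc).1).2 hc
  have hprop : ∀ l, C' l ⊆ C l ∧ η l / 2 ^ (D C l).card ≤ ∑ x ∈ C' l, m l x := by
    intro l
    obtain ⟨N, hN, hlN⟩ := ((hC' l).and (hlarge l)).exists
    rw [← hN]
    exact hG N l hlN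
  refine ⟨C', hprop, ?_⟩
  intro y hy
  -- show that y is in the closure of K
  have hcl : y ∈ closure K := by
    rw [mem_closure_iff_nhds]
    intro V hV
    obtain ⟨n, hn⟩ : ∃ n, PiNat.cylinder y n ⊆ V := by
      have := (PiNat.isTopologicalBasis_cylinders (E := fun _ : ℕ => Node)).mem_nhds_iff.1 hV
      obtain ⟨_, ⟨x, n, rfl⟩, hyx, hsub⟩ := this
      refine ⟨n, ?_⟩
      rw [PiNat.mem_cylinder_iff_eq] at hyx
      rw [hyx]; exact hsub
    have hall : ∀ᶠ N in (U : Filter ℕ), ∀ l < n, G N l = C' l := by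
      have : ∀ᶠ N in (U : Filter ℕ), ∀ l ∈ range n, G N l = C' l := by
        rw [Filter.eventually_all_finset]
        intro l _
        exact hC' l
      filter_upwards [this] with N hN l hl
      exact hN l (mem_range.2 hl)
    obtain ⟨N, hN, hnN⟩ := (hall.and (hlarge n)).exists
    have hne : ∀ l < N, (G N l).Nonempty := by
      intro l hl
      have := (hG N l hl).2
      have hpos : 0 < ∑ x ∈ G N l, m l x := lt_of_lt_of_le (div_pos (hη l) (by positivity)) this
      by_contra hcon
      rw [Finset.not_nonempty_iff_eq_empty] at hcon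
      rw [hcon] at hpos; simp at hpos
    choose! z hz using hne
    let y' : ℕ → Node := fun l => if l < n then y l else z l
    have hy' : trace y' N ∈ D (G N) N := by
      rw [trace_mem_D]
      intro l hl
      by_cases hln : l < n
      · simp only [y', if_pos hln]
        rw [hN l hln]; exact hy l
      · simp only [y', if_neg hln]
        exact hz l hl
    obtain ⟨x, hxK, hx⟩ := hTK N _ (hGD N hy')
    refine ⟨x, hn ?_, hxK⟩
    rw [PiNat.mem_cylinder_iff]
    intro l hl
    have := trace_inj hx l (by omega)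
    rw [this]
    simp only [y', if_pos hl]
  rwa [hK.closure_eq] at hcl

end

end Pool.Agent.Lib.MP_d80832_gt
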