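import Pool.Agent.Lib.MP_d80832_gt.Fin

set_option autoImplicit false

/-!
Conditions, their product measures, and the main lemma: conull Borel sets contain
(the tail closure of) a smaller condition.
-/

namespace Pool.Agent.Lib.MP_d80832_gt

open Finset MeasureTheory

/-- bound for the number of initial segments -/
noncomputable def P : ℕ → ℕ
  | 0 => 1
  | n + 1 => (Node.ball ((2 ^ (n + 2 + P n)) ^ n)).card * P n

/-- the loss factors -/
noncomputable def L (n : ℕ) : ℕ := 2 ^ (n + 2 + P n)

/-- the heights -/
noncomputable def H (n : ℕ) : ℕ := (L n) ^ n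

lemma P_succ (n : ℕ) : P (n + 1) = (Node.ball (H n)).card * P n := rfl

lemma L_pos (n : ℕ) : 0 < L n := by unfold L; positivity

lemma two_le_L (n : ℕ) : 2 ≤ L n := by
  unfold L
  calc 2 = 2 ^ 1 := by norm_num
    _ ≤ _ := Nat.pow_le_pow_right (by norm_num) (by omega)

lemma H_pos (n : ℕ) : 0 < H n := Nat.pow_pos (L_pos n)

lemma card_D_le {C : ℕ → Finset Node} (hC : ∀ i, C i ⊆ Node.ball (H i)) (n : ℕ) :
    (D C n).card ≤ P n := by
  induction n with
  | zero => simp [D, P]
  | succ n ih =>
    rw [card_D_succ, P_succ]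
    exact Nat.mul_le_mul (Finset.card_le_card (hC n)) ih

/-- A condition: finite sets of nodes with fast growing norms. -/
def Cond (C : ℕ → Finset Node) : Prop :=
  ∀ n : ℕ, ∀ᶠ i in Filter.atTop, C i ⊆ Node.ball (H i) ∧ ∃ t, (L i : ℝ) ^ n ≤ Node.S t (C i)

/-- The set of sequences which are eventually in `C`. -/
def star (C : ℕ → Finset Node) : Set (ℕ → Node) := {y | ∀ᶠ i in Filter.atTop, y i ∈ C i}

/-- The order of conditions. -/
def Le (C' C : ℕ → Finset Node) : Prop := ∀ᶠ i in Filter.atTop, C' i ⊆ C i

lemma Le.refl (C : ℕ → Finset Node) : Le C C := Filter.Eventually.of_forall fun _ => subset_rfl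

lemma Le.trans {A B C : ℕ → Finset Node} (h : Le A B) (h' : Le B C) : Le A C := by
  filter_upwards [h, h'] with i hi hi'
  exact hi.trans hi'

lemma star_mono {C' C : ℕ → Finset Node} (h : Le C' C) : star C' ⊆ star C := by
  intro y hy
  filter_upwards [h, hy] with i hi hyi
  exact hi hyi

lemma measurableSet_star (C : ℕ → Finset Node) : MeasurableSet (star C) := by
  have : star C = ⋃ n : ℕ, ⋂ i : ℕ, ⋂ _ : n ≤ i, (fun y : ℕ → Node => y i) ⁻¹' (C i : Set Node) := by
    ext y
    simp [star, Filter.eventually_atTop]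
  rw [this]
  refine MeasurableSet.iUnion fun n => MeasurableSet.iInter fun i => MeasurableSet.iInter fun _ => ?_
  exact (measurable_pi_apply i) (MeasurableSet.of_discrete)

lemma Cond.nonempty {C : ℕ → Finset Node} (hC : Cond C) : ∀ᶠ i in Filter.atTop, (C i).Nonempty := by
  filter_upwards [hC 0] with i hi
  obtain ⟨_, t, ht⟩ := hi
  rw [pow_zero] at ht
  obtain ⟨x, hx, _⟩ := Node.S_pos_exists (lt_of_lt_of_le one_pos ht)
  exact ⟨x, hx⟩

lemma Cond.congr {C C' : ℕ → Finset Node} (hC : Cond C) (h : ∀ᶠ i in Filter.atTop, C' i = C i) :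
    Cond C' := by
  intro n
  filter_upwards [hC n, h] with i hi hi'
  rw [hi']; exact hi

/-- Overwrite an initial segment of `y` by the list `u`. -/
def θ (u : List Node) (y : ℕ → Node) : ℕ → Node := fun i => (u[i]?).getD (y i)

lemma θ_ge (u : List Node) (y : ℕ → Node) {i : ℕ} (h : u.length ≤ i) : θ u y i = y i := by
  unfold θ
  rw [List.getElem?_eq_none h]; rfl

lemma measurable_θ (u : List Node) : Measurable (θ u) := by
  apply measurable_pi_lambda
  intro i
  unfold θ
  by_cases h : i < u.length
  · rw [List.getElem?_eq_getElem h]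
    exact measurable_const
  · rw [List.getElem?_eq_none (by omega)]
    exact measurable_pi_apply i

lemma exists_θ {y z : ℕ → Node} (h : ∀ᶠ i in Filter.atTop, z i = y i) : ∃ u, z = θ u y := by
  obtain ⟨N, hN⟩ := Filter.eventually_atTop.1 h
  refine ⟨(List.range N).map z, ?_⟩
  funext i
  by_cases hi : i < N
  · unfold θ
    rw [List.getElem?_map, List.getElem?_range hi]; rfl
  · rw [θ_ge _ _ (by simp; omega)]
    exact hN i (by omega)

/-- weights sum -/
noncomputable def η (l : ℕ) : ℝ := (1 / 2 : ℝ) ^ (l + 2)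

lemma η_pos (l : ℕ) : 0 < η l := by unfold η; positivity

lemma sum_η (n : ℕ) : ∑ l ∈ range n, η l = 1 / 2 - (1 / 2 : ℝ) ^ (n + 1) := by
  induction n with
  | zero => simp
  | succ n ih =>
    rw [sum_range_succ, ih]; unfold η
    rw [pow_succ, pow_succ _ (n + 1)]; ring

lemma sum_η_lt (n : ℕ) : ∑ l ∈ range n, η l < 1 / 2 := by
  rw [sum_η]
  have : (0 : ℝ) < (1 / 2 : ℝ) ^ (n + 1) := by positivity
  linarith

/-- measure on nodes given by weights on a finite set -/
noncomputable def nodeMeasure (C : Finset Node) (m : Node → ℝ) : Measure Node :=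
  ∑ x ∈ C, ENNReal.ofReal (m x) • Measure.dirac x

lemma nodeMeasure_apply (C : Finset Node) (m : Node → ℝ) (hm : ∀ x, 0 ≤ m x) (T : Set Node)
    [DecidablePred (· ∈ T)] :
    nodeMeasure C m T = ENNReal.ofReal (∑ x ∈ C with x ∈ T, m x) := by
  classical
  unfold nodeMeasure
  rw [Measure.finsetSum_apply, ENNReal.ofReal_sum_of_nonneg (fun x _ => hm x), Finset.sum_filter]
  apply Finset.sum_congr rfl
  intro x _
  rw [Measure.smul_apply, Measure.dirac_apply' x MeasurableSet.of_discrete, smul_eq_mul]
  by_cases hx : x ∈ T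
  · simp [hx]
  · simp [hx]

section

variable {C : ℕ → Finset Node} {m : ℕ → Node → ℝ}

lemma nodeMeasure_prob (hm0 : ∀ i x, 0 ≤ m i x) (hm1 : ∀ i, ∑ x ∈ C i, m i x = 1) (i : ℕ) :
    IsProbabilityMeasure (nodeMeasure (C i) (m i)) := by
  classical
  constructor
  rw [nodeMeasure_apply _ _ (hm0 i)]
  simp [hm1]

lemma trace_measure (hm0 : ∀ i x, 0 ≤ m i x) (hm1 : ∀ i, ∑ x ∈ C i, m i x = 1) {n : ℕ}
    {u : List Node} (hu : u ∈ D C n) :
    (Measure.infinitePi fun i => nodeMeasure (C i) (m i)) {y | trace y n = u}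
      = ENNReal.ofReal (wt m u) := by
  classical
  have := nodeMeasure_prob hm0 hm1
  induction n generalizing u with
  | zero =>
    have : u = [] := by simpa [D] using hu
    subst this
    simp [trace, wt]
  | succ n _ =>
    -- find a sequence with this trace
    have hex : ∀ (n : ℕ) (u : List Node), u ∈ D C n →
        ∃ a : ℕ → Node, trace a n = u ∧ (∀ l < n, a l ∈ C l) := by
      intro n
      induction n with
      | zero =>
        intro u hu
        have h0 : u = [] := by simpa [D] using hu
        exact ⟨fun _ => default, by rw [h0]; rfl, by simp⟩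
      | succ n ih =>
        intro u hu
        match u with
        | [] => have := D_length hu; simp at this
        | c :: v =>
          obtain ⟨hc, hv⟩ := mem_D_succ.1 hu
          obtain ⟨a, ha, haC⟩ := ih v hv
          refine ⟨Function.update a n c, ?_, ?_⟩
          · rw [trace, Function.update_self, trace_congr (z := a)
              (fun l hl => Function.update_of_ne (by omega) _ _), ha]
          · intro l hl
            rcases Nat.lt_succ_iff_lt_or_eq.1 hl with hl | rfl
            · rw [Function.update_of_ne (by omega)]; exact haC l hl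
            · rw [Function.update_self]; exact hc
    obtain ⟨a, ha, haC⟩ := hex _ u hu
    have hset : {y : ℕ → Node | trace y (n + 1) = u} =
        Set.pi (range (n + 1) : Finset ℕ) (fun i => {a i}) := by
      ext y
      simp only [Set.mem_ofPred_eq, Set.mem_pi, mem_coe, mem_range, Set.mem_singleton_iff]
      rw [← ha]
      exact ⟨fun h => trace_inj h, fun h => trace_congr h⟩
    rw [hset, Measure.infinitePi_pi _ (fun i _ => MeasurableSet.of_discrete)]
    have hpt : ∀ i ∈ range (n + 1), nodeMeasure (C i) (m i) {a i} = ENNReal.ofReal (m i (a i)) := by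
      intro i hi
      rw [nodeMeasure_apply _ _ (hm0 i)]
      congr 1
      have : (C i).filter (fun x => x ∈ ({a i} : Set Node)) = {a i} := by
        ext x
        simp only [mem_filter, Set.mem_singleton_iff, mem_singleton]
        constructor
        · rintro ⟨_, h⟩; exact h
        · rintro rfl; exact ⟨haC i (mem_range.1 hi), rfl⟩
      rw [this, Finset.sum_singleton]
    rw [Finset.prod_congr rfl hpt, ← ENNReal.ofReal_prod_of_nonneg (fun i _ => hm0 _ _)]
    congr 1
    rw [← ha]
    clear hset hpt ha haC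
    generalize n + 1 = k
    induction k with
    | zero => simp [trace, wt]
    | succ k ih =>
      rw [prod_range_succ, ih, trace, wt]
      have : (trace a k).length = k := by
        clear ih
        induction k with
        | zero => rfl
        | succ k ih => rw [trace, List.length_cons, ih]
      rw [this, mul_comm]

lemma ae_mem (hm0 : ∀ i x, 0 ≤ m i x) (hm1 : ∀ i, ∑ x ∈ C i, m i x = 1) :
    ∀ᵐ y ∂(Measure.infinitePi fun i => nodeMeasure (C i) (m i)), ∀ i, y i ∈ C i := by
  classical
  have := nodeMeasure_prob hm0 hm1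
  rw [ae_all_iff]
  intro i
  have h1 : nodeMeasure (C i) (m i) {x | x ∉ C i} = 0 := by
    rw [nodeMeasure_apply _ _ (hm0 i)]
    have : (C i).filter (fun x => x ∈ {x | x ∉ C i}) = ∅ := by
      ext x; simp
    rw [this]; simp
  have h2 := (measurePreserving_eval_infinitePi (fun i => nodeMeasure (C i) (m i)) i)
  have h3 := h2.measure_preimage (s := {x | x ∉ C i}) (MeasurableSet.of_discrete.nullMeasurableSet)
  rw [h1] at h3
  exact h3

lemma measure_closed_le (hm0 : ∀ i x, 0 ≤ m i x) (hm1 : ∀ i, ∑ x ∈ C i, m i x = 1)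
    (K : Set (ℕ → Node))
    (hK : ENNReal.ofReal (1 / 2) < (Measure.infinitePi fun i => nodeMeasure (C i) (m i)) K)
    (n : ℕ) :
    ∃ T : Finset (List Node), T ⊆ D C n ∧ (∀ u ∈ T, ∃ y ∈ K, trace y n = u) ∧
      ∑ l ∈ range n, η l < ∑ v ∈ T, wt m v := by
  classical
  have := nodeMeasure_prob hm0 hm1
  set μ := (Measure.infinitePi fun i => nodeMeasure (C i) (m i)) with hμ
  refine ⟨(D C n).filter (fun u => ∃ y ∈ K, trace y n = u), Finset.filter_subset _ _, ?_, ?_⟩
  · intro u hu; exact (Finset.mem_filter.1 hu).2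
  · set T := (D C n).filter (fun u => ∃ y ∈ K, trace y n = u) with hT
    have hsub : K ≤ᵐ[μ] (⋃ u ∈ T, {y | trace y n = u} : Set (ℕ → Node)) := by
      filter_upwards [ae_mem hm0 hm1] with y hy hyK
      change y ∈ (⋃ u ∈ T, {y | trace y n = u} : Set (ℕ → Node))
      rw [Set.mem_iUnion₂]
      refine ⟨trace y n, ?_, rfl⟩
      rw [hT, Finset.mem_filter]
      exact ⟨trace_mem_D.2 fun l _ => hy l, y, hyK, rfl⟩
    have h1 : μ K ≤ ENNReal.ofReal (∑ v ∈ T, wt m v) := by
      calc μ K ≤ μ (⋃ u ∈ T, {y | trace y n = u} : Set (ℕ → Node)) := measure_mono_ae hsub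
        _ ≤ ∑ u ∈ T, μ {y | trace y n = u} := measure_biUnion_finset_le _ _
        _ = ∑ u ∈ T, ENNReal.ofReal (wt m u) := by
          apply Finset.sum_congr rfl
          intro u hu
          exact trace_measure hm0 hm1 (Finset.mem_filter.1 hu).1
        _ = ENNReal.ofReal (∑ v ∈ T, wt m v) := by
          rw [ENNReal.ofReal_sum_of_nonneg]
          intro u _; exact wt_nonneg hm0 u
    have h2 := hK.trans_le h1
    rw [ENNReal.ofReal_lt_ofReal_iff_of_nonneg (by norm_num)] at h2
    exact (sum_η_lt n).trans h2

end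

/-- Main lemma: every condition carries a finite measure such that each conull Borel set contains
(the tail closure of) a smaller condition. -/
theorem exists_measure {C : ℕ → Finset Node} (hC : Cond C) :
    ∃ ν : Measure (ℕ → Node), IsFiniteMeasure ν ∧ ν (star C)ᶜ = 0 ∧
      ∀ B : Set (ℕ → Node), MeasurableSet B → ν Bᶜ = 0 →
        ∃ C' : ℕ → Finset Node, Cond C' ∧ Le C' C ∧ star C' ⊆ B := by
  classical
  -- normalise
  let Ct : ℕ → Finset Node := fun i =>
    if C i ⊆ Node.ball (H i) ∧ (C i).Nonempty then C i else {default}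
  have hdef : ∀ i, (default : Node) ∈ Node.ball (H i) := by
    intro i
    have := H_pos i
    obtain ⟨k, hk⟩ := Nat.exists_eq_succ_of_ne_zero this.ne'
    rw [hk, Node.ball]
    exact Finset.mem_insert_self _ _
  have hCt_ball : ∀ i, Ct i ⊆ Node.ball (H i) := by
    intro i
    by_cases h : C i ⊆ Node.ball (H i) ∧ (C i).Nonempty
    · simp only [Ct, if_pos h]; exact h.1
    · simp only [Ct, if_neg h]
      rw [Finset.singleton_subset_iff]; exact hdef i
  have hCt_ne : ∀ i, (Ct i).Nonempty := by
    intro i
    by_cases h : C i ⊆ Node.ball (H i) ∧ (C i).Nonempty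
    · simp only [Ct, if_pos h]; exact h.2
    · simp only [Ct, if_neg h]; exact Finset.singleton_nonempty _
  have hCt_eq : ∀ᶠ i in Filter.atTop, Ct i = C i := by
    filter_upwards [hC 0, hC.nonempty] with i hi hi'
    simp only [Ct, if_pos (⟨hi.1, hi'⟩ : C i ⊆ Node.ball (H i) ∧ (C i).Nonempty)]
  choose t ht using fun i => Node.exists_max (Ct i)
  let s : ℕ → ℝ := fun i => Node.S (t i) (Ct i)
  have hs : ∀ i, 0 < s i := by
    intro i
    obtain ⟨x, hx⟩ := hCt_ne i
    have h1 : Node.w x x ≤ Node.S x (Ct i) :=
      Finset.single_le_sum (f := fun y => Node.w x y) (fun y _ => Node.w_nonneg x y) hx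
    rw [Node.w_self] at h1
    have := ht i x
    change 0 < Node.S (t i) (Ct i)
    linarith
  let m : ℕ → Node → ℝ := fun i x => Node.w (t i) x / s i
  have hm0 : ∀ i x, 0 ≤ m i x := fun i x => div_nonneg (Node.w_nonneg _ _) (hs i).le
  have hm1 : ∀ i, ∑ x ∈ Ct i, m i x = 1 := by
    intro i
    simp only [m]
    rw [← Finset.sum_div]
    exact div_self (hs i).ne'
  have := nodeMeasure_prob hm0 hm1
  set μ := (Measure.infinitePi fun i => nodeMeasure (Ct i) (m i)) with hμ
  let ν0 : Measure (ℕ → Node) := Measure.sum (fun u : List Node => μ.map (θ u))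
  have hnull : ∀ B : Set (ℕ → Node), MeasurableSet B → (ν0.toFinite B = 0 ↔
      ∀ u, μ (θ u ⁻¹' B) = 0) := by
    intro B hB
    rw [toFinite_apply_eq_zero_iff, Measure.sum_apply_eq_zero' hB]
    apply forall_congr'
    intro u
    rw [Measure.map_apply (measurable_θ u) hB]
  refine ⟨ν0.toFinite, inferInstance, ?_, ?_⟩
  · rw [hnull _ (measurableSet_star C).compl]
    intro u
    have h1 := ae_mem hm0 hm1
    have h2 : ∀ᵐ y ∂μ, y ∈ (θ u ⁻¹' (star C)ᶜ)ᶜ := by
      filter_upwards [h1] with y hy
      simp only [Set.mem_compl_iff, Set.mem_preimage, not_not]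
      change ∀ᶠ i in Filter.atTop, θ u y i ∈ C i
      filter_upwards [hCt_eq, Filter.eventually_ge_atTop u.length] with i hi hui
      rw [θ_ge _ _ hui, ← hi]
      exact hy i
    rw [ae_iff] at h2
    refine measure_mono_null (fun y hy => ?_) h2
    intro h
    exact h hy
  · intro B hB hBν
    rw [hnull _ hB.compl] at hBν
    let B' : Set (ℕ → Node) := ⋂ u : List Node, θ u ⁻¹' B
    have : Countable (List Node) := inferInstance
    have hB' : MeasurableSet B' := MeasurableSet.iInter fun u => measurable_θ u hB
    have hμB' : μ B' = 1 := by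
      have : μ B'ᶜ = 0 := by
        simp only [B', Set.compl_iInter]
        rw [measure_iUnion_null_iff]
        intro u
        exact hBν u
      rwa [prob_compl_eq_zero_iff hB'] at this
    obtain ⟨K, hKB, hKcl, hKμ⟩ := hB'.exists_isClosed_lt_add (μ := μ) (by simp)
      (ε := ENNReal.ofReal (1 / 2)) (by simp)
    rw [hμB'] at hKμ
    have hKhalf : ENNReal.ofReal (1 / 2) < μ K := by
      by_contra hcon
      push Not at hcon
      have : μ K + ENNReal.ofReal (1 / 2) ≤ ENNReal.ofReal (1 / 2) + ENNReal.ofReal (1 / 2) := by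
        gcongr
      rw [← ENNReal.ofReal_add (by norm_num) (by norm_num)] at this
      norm_num at this
      have h3 := hKμ.trans_le (by simpa using this)
      exact lt_irrefl _ h3
    obtain ⟨C', hC', hC'K⟩ := closed_selection hm0 hm1 η η_pos K hKcl
      (measure_closed_le hm0 hm1 K hKhalf)
    have hC'ne : ∀ l, (C' l).Nonempty := by
      intro l
      have := (hC' l).2
      have hpos : 0 < ∑ x ∈ C' l, m l x := lt_of_lt_of_le (div_pos (η_pos l) (by positivity)) this
      by_contra hcon
      rw [Finset.not_nonempty_iff_eq_empty] at hcon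
      rw [hcon] at hpos; simp at hpos
    refine ⟨C', ?_, ?_, ?_⟩
    · intro n
      filter_upwards [hC (n + 1), hCt_eq] with i hi hi'
      obtain ⟨_, t', ht'⟩ := hi
      refine ⟨(hC' i).1.trans (hCt_ball i), t i, ?_⟩
      -- norm estimate
      have h1 : (L i : ℝ) ^ (n + 1) ≤ s i := by
        rw [← hi'] at ht'
        exact ht'.trans (ht i t')
      have h2 : (1 : ℝ) / L i ≤ ∑ x ∈ C' i, m i x := by
        refine le_trans ?_ (hC' i).2
        have hcard : (D Ct i).card ≤ P i := card_D_le hCt_ball i
        unfold L η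
        rw [div_pow, one_pow, div_div, ← pow_add]
        push_cast
        apply one_div_le_one_div_of_le (by positivity)
        apply pow_le_pow_right₀ (by norm_num)
        omega
      have h3 : Node.S (t i) (C' i) = s i * ∑ x ∈ C' i, m i x := by
        simp only [m]
        rw [← Finset.sum_div, mul_div_cancel₀ _ (hs i).ne']
        rfl
      rw [h3]
      have hL : (0 : ℝ) < L i := by exact_mod_cast L_pos i
      calc (L i : ℝ) ^ n = (L i : ℝ) ^ (n + 1) * (1 / L i) := by
            rw [pow_succ]; field_simp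
        _ ≤ s i * ∑ x ∈ C' i, m i x := by
            apply mul_le_mul h1 h2 (by positivity) (hs i).le
    · filter_upwards [hCt_eq] with i hi
      rw [← hi]; exact (hC' i).1
    · intro z hz
      obtain ⟨N, hN⟩ := Filter.eventually_atTop.1 hz
      choose c hc using hC'ne
      let y : ℕ → Node := fun i => if i < N then c i else z i
      have hyK : y ∈ K := by
        apply hC'K
        intro l
        by_cases hl : l < N
        · simp only [y, if_pos hl]; exact hc l
        · simp only [y, if_neg hl]; exact hN l (by omega)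
      have hyB' := hKB hyK
      obtain ⟨u, hu⟩ : ∃ u, z = θ u y := by
        apply exists_θ
        rw [Filter.eventually_atTop]
        refine ⟨N, fun i hi => ?_⟩
        simp only [y, if_neg (by omega : ¬ i < N)]
      rw [hu]
      exact Set.mem_iInter.1 hyB' u

end Pool.Agent.Lib.MP_d80832_gt
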