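import Pool.Agent.Lib.MP_d80832_gt.Meas

set_option autoImplicit false

/-!
The four tasks handled in each step of the construction.
-/

namespace Pool.Agent.Lib.MP_d80832_gt

open Finset MeasureTheory

/-- A measurable relation which is total on a conull set is, up to a null set, covered by
countably many of its sections. -/
theorem fubini_cover {E : Type*} [MeasurableSpace E] (ν : Measure E) [IsFiniteMeasure ν]
    (Q : Set E) (hQ : MeasurableSet Q) (hν : ν Qᶜ = 0) (R : Set (E × E)) (hR : MeasurableSet R)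
    (htot : ∀ x ∈ Q, ∀ y ∈ Q, (x, y) ∈ R ∨ (y, x) ∈ R) :
    ∃ F : Set E, F ⊆ Q ∧ F.Countable ∧ ν {y | ∀ x ∈ F, (x, y) ∉ R} = 0 := by
  classical
  let Dd : E → Set E := fun x => Prod.mk x ⁻¹' R
  have hDd : ∀ x, MeasurableSet (Dd x) := fun x => measurable_prodMk_left hR
  let UU : Set E → Set E := fun F => ⋃ x ∈ F, Dd x
  have hUU : ∀ F : Set E, F.Countable → MeasurableSet (UU F) :=
    fun F hF => MeasurableSet.biUnion hF fun x _ => hDd x
  let SS : Set ENNReal := {r | ∃ F : Set E, F ⊆ Q ∧ F.Countable ∧ r = ν (UU F)}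
  have hSSne : SS.Nonempty := ⟨ν (UU ∅), ∅, Set.empty_subset _, Set.countable_empty, rfl⟩
  obtain ⟨u, _, hulim, hu⟩ := exists_seq_tendsto_sSup hSSne (OrderTop.bddAbove SS)
  choose G hGQ hGc hGu using hu
  let F : Set E := ⋃ n, G n
  have hFQ : F ⊆ Q := Set.iUnion_subset hGQ
  have hFc : F.Countable := Set.countable_iUnion hGc
  have hFmax : ∀ F' : Set E, F' ⊆ Q → F'.Countable → ν (UU F') ≤ ν (UU F) := by
    intro F' hF'Q hF'c
    have h1 : ν (UU F') ≤ sSup SS := le_sSup ⟨F', hF'Q, hF'c, rfl⟩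
    have h2 : sSup SS ≤ ν (UU F) := by
      apply le_of_tendsto' hulim
      intro n
      rw [hGu n]
      apply measure_mono
      apply Set.biUnion_subset_biUnion_left
      exact Set.subset_iUnion G n
    exact h1.trans h2
  let W : Set E := Q \ UU F
  have hW : MeasurableSet W := hQ.diff (hUU F hFc)
  have hWnull : ∀ x ∈ W, ν (Dd x ∩ W) = 0 := by
    intro x hx
    have h1 := hFmax (insert x F) (Set.insert_subset hx.1 hFQ) (hFc.insert x)
    have h2 : UU (insert x F) = UU F ∪ (Dd x \ UU F) := by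
      simp only [UU, Set.biUnion_insert]
      rw [Set.union_sdiff_self, Set.union_comm]
    rw [h2, measure_union Set.disjoint_sdiff_right ((hDd x).diff (hUU F hFc))] at h1
    have h3 : ν (Dd x \ UU F) = 0 := by
      have hfin : ν (UU F) ≠ ⊤ := measure_ne_top _ _
      have h4 : ν (UU F) + ν (Dd x \ UU F) ≤ ν (UU F) + 0 := by simpa using h1
      have := (ENNReal.add_le_add_iff_left hfin).1 h4
      simpa using this
    refine measure_mono_null ?_ h3
    rintro y ⟨hy1, hy2⟩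
    exact ⟨hy1, hy2.2⟩
  have hRW : MeasurableSet (R ∩ W ×ˢ W) := hR.inter (hW.prod hW)
  have h1 : (ν.prod ν) (R ∩ W ×ˢ W) = 0 := by
    rw [Measure.measure_prod_null hRW]
    apply Filter.Eventually.of_forall
    intro x
    by_cases hx : x ∈ W
    · refine measure_mono_null ?_ (hWnull x hx)
      rintro y ⟨hy1, hy2⟩
      exact ⟨hy1, hy2.2⟩
    · have : Prod.mk x ⁻¹' (R ∩ W ×ˢ W) = ∅ := by
        ext y
        simp only [Set.mem_preimage, Set.mem_inter_iff, Set.mem_prod, Set.mem_empty_iff_false,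
          iff_false]
        rintro ⟨_, h, _⟩
        exact hx h
      simp only [this, measure_empty, Pi.zero_apply]
  have h2 : (ν.prod ν) (Prod.swap ⁻¹' (R ∩ W ×ˢ W)) = 0 := by
    rw [(Measure.measurePreserving_swap (μ := ν) (ν := ν)).measure_preimage
      hRW.nullMeasurableSet, h1]
  have h3 : (ν.prod ν) (W ×ˢ W) = 0 := by
    refine measure_mono_null ?_ (measure_union_null h1 h2)
    rintro ⟨x, y⟩ ⟨hx, hy⟩
    rcases htot x hx.1 y hy.1 with h | h
    · left; exact ⟨h, hx, hy⟩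
    · right; exact ⟨h, hy, hx⟩
  rw [Measure.prod_prod, mul_self_eq_zero] at h3
  refine ⟨F, hFQ, hFc, ?_⟩
  refine measure_mono_null ?_ (measure_union_null h3 hν)
  intro y hy
  by_cases hyQ : y ∈ Q
  · left
    refine ⟨hyQ, ?_⟩
    intro hyU
    rw [Set.mem_iUnion₂] at hyU
    obtain ⟨x, hx, hxy⟩ := hyU
    exact hy x hx hxy
  · right; exact hyQ

lemma measurableSet_eventually_imp {E : Type*} [MeasurableSpace E] {B : ℕ → Set E}
    (hB : ∀ n, MeasurableSet (B n)) :
    MeasurableSet {p : E × E | ∀ᶠ m in Filter.atTop, p.1 ∈ B m → p.2 ∈ B m} := by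
  have : {p : E × E | ∀ᶠ m in Filter.atTop, p.1 ∈ B m → p.2 ∈ B m} =
      ⋃ n : ℕ, ⋂ m : ℕ, ⋂ _ : n ≤ m, ((Prod.fst ⁻¹' (B m))ᶜ ∪ (Prod.snd ⁻¹' (B m))) := by
    ext ⟨x, y⟩
    simp only [Set.mem_ofPred_eq, Filter.eventually_atTop, Set.mem_iUnion, Set.mem_iInter,
      Set.mem_union, Set.mem_compl_iff, Set.mem_preimage, ge_iff_le]
    constructor
    · rintro ⟨n, hn⟩
      refine ⟨n, fun m hm => ?_⟩
      by_cases h : x ∈ B m
      · right; exact hn m hm h
      · left; exact h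
    · rintro ⟨n, hn⟩
      refine ⟨n, fun m hm h => ?_⟩
      rcases hn m hm with h' | h'
      · exact absurd h h'
      · exact h'
  rw [this]
  refine MeasurableSet.iUnion fun n => MeasurableSet.iInter fun m => MeasurableSet.iInter fun _ => ?_
  exact (measurable_fst (hB m)).compl.union (measurable_snd (hB m))

/-- Task 1: bounding. -/
theorem task_bound {C : ℕ → Finset Node} (hC : Cond C) (B : ℕ → ℕ → Set (ℕ → Node))
    (hB : ∀ n m, MeasurableSet (B n m)) :
    ∃ C' : ℕ → Finset Node, Cond C' ∧ Le C' C ∧ ∃ h : ℕ → ℕ, ∀ y ∈ star C',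
      ∀ᶠ n in Filter.atTop, (∀ᶠ m in Filter.atTop, y ∈ B n m) → ∀ m, h n ≤ m → y ∈ B n m := by
  obtain ⟨ν, hνfin, hνC, hν⟩ := exists_measure hC
  -- the good sets
  let G : ℕ → ℕ → Set (ℕ → Node) := fun n j =>
    {y | (∀ᶠ m in Filter.atTop, y ∈ B n m) → ∀ m, j ≤ m → y ∈ B n m}
  have hG : ∀ n j, MeasurableSet (G n j) := by
    intro n j
    have : G n j = (⋃ k : ℕ, ⋂ m : ℕ, ⋂ _ : k ≤ m, B n m)ᶜ ∪ ⋂ m : ℕ, ⋂ _ : j ≤ m, B n m := by
      ext y
      simp only [G, Set.mem_ofPred_eq, Filter.eventually_atTop, Set.mem_union, Set.mem_compl_iff,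
        Set.mem_iUnion, Set.mem_iInter, ge_iff_le]
      tauto
    rw [this]
    apply MeasurableSet.union
    · apply MeasurableSet.compl
      exact MeasurableSet.iUnion fun k => MeasurableSet.iInter fun m =>
        MeasurableSet.iInter fun _ => hB n m
    · exact MeasurableSet.iInter fun m => MeasurableSet.iInter fun _ => hB n m
  have hsmall : ∀ n, ∃ j, ν (G n j)ᶜ < (1 / 2 : ENNReal) ^ n := by
    intro n
    have hanti : Antitone fun j => (G n j)ᶜ := by
      intro i j hij y hy hyi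
      exact hy fun hev m hm => hyi hev m (hij.trans hm)
    have hempty : (⋂ j, (G n j)ᶜ) = ∅ := by
      ext y
      simp only [Set.mem_iInter, Set.mem_compl_iff, Set.mem_empty_iff_false, iff_false, not_forall,
        not_not]
      by_cases hev : ∀ᶠ m in Filter.atTop, y ∈ B n m
      · obtain ⟨k, hk⟩ := Filter.eventually_atTop.1 hev
        exact ⟨k, fun _ m hm => hk m hm⟩
      · exact ⟨0, fun h => absurd h hev⟩
    have hlim := tendsto_measure_iInter_atTop (μ := ν)
      (fun j => (hG n j).compl.nullMeasurableSet) hanti ⟨0, measure_ne_top _ _⟩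
    rw [hempty, measure_empty] at hlim
    have hpos : (0 : ENNReal) < (1 / 2 : ENNReal) ^ n := by
      apply ENNReal.pow_pos
      simp
    exact ((tendsto_order.1 hlim).2 _ hpos).exists
  choose h hh using hsmall
  have hBC : ν {y | ∃ᶠ n in Filter.atTop, y ∈ (G n (h n))ᶜ} = 0 := by
    apply measure_setOfPred_frequently_eq_zero
    have hle : ∑' n, ν (G n (h n))ᶜ ≤ ∑' n : ℕ, (1 / 2 : ENNReal) ^ n :=
      ENNReal.tsum_le_tsum fun n => (hh n).le
    have hfin : ∑' n : ℕ, (1 / 2 : ENNReal) ^ n ≠ ⊤ := by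
      rw [ENNReal.tsum_geometric]
      simp
    exact ne_top_of_le_ne_top hfin hle
  let Good : Set (ℕ → Node) := {y | ∀ᶠ n in Filter.atTop, y ∈ G n (h n)}
  have hGood : MeasurableSet Good := by
    have : Good = ⋃ k : ℕ, ⋂ n : ℕ, ⋂ _ : k ≤ n, G n (h n) := by
      ext y
      simp only [Good, Set.mem_ofPred_eq, Filter.eventually_atTop, Set.mem_iUnion, Set.mem_iInter,
        ge_iff_le]
    rw [this]
    exact MeasurableSet.iUnion fun k => MeasurableSet.iInter fun n =>
        MeasurableSet.iInter fun _ => hG n (h n)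
  have hGoodν : ν Goodᶜ = 0 := by
    refine measure_mono_null ?_ hBC
    intro y hy
    simp only [Good, Set.mem_compl_iff, Set.mem_ofPred_eq, Filter.not_eventually] at hy
    exact hy
  obtain ⟨C', hC', hle, hsub⟩ := hν Good hGood hGoodν
  exact ⟨C', hC', hle, h, fun y hy => hsub hy⟩

/-- Task 2: trivialising Borel families linearly quasi-ordered by almost inclusion. -/
theorem task_linear {C : ℕ → Finset Node} (hC : Cond C) (B : ℕ → Set (ℕ → Node))
    (hB : ∀ m, MeasurableSet (B m))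
    (htot : ∀ x ∈ star C, ∀ y ∈ star C, (∀ᶠ m in Filter.atTop, x ∈ B m → y ∈ B m) ∨
      (∀ᶠ m in Filter.atTop, y ∈ B m → x ∈ B m)) :
    ∃ C' : ℕ → Finset Node, Cond C' ∧ Le C' C ∧ ∃ F : Set (ℕ → Node), F ⊆ star C ∧ F.Countable ∧
      ∀ y ∈ star C', ∃ x ∈ F, ∀ᶠ m in Filter.atTop, x ∈ B m → y ∈ B m := by
  obtain ⟨ν, hνfin, hνC, hν⟩ := exists_measure hC
  have hR := measurableSet_eventually_imp hB
  obtain ⟨F, hFQ, hFc, hF⟩ := fubini_cover ν (star C) (measurableSet_star C) hνC _ hR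
    (fun x hx y hy => htot x hx y hy)
  let Good : Set (ℕ → Node) := ⋃ x ∈ F, {y | ∀ᶠ m in Filter.atTop, x ∈ B m → y ∈ B m}
  have hGood : MeasurableSet Good := by
    apply MeasurableSet.biUnion hFc
    intro x _
    exact measurable_prodMk_left (x := x) hR
  have hGoodν : ν Goodᶜ = 0 := by
    refine measure_mono_null ?_ hF
    intro y hy x hx hxy
    apply hy
    rw [Set.mem_iUnion₂]
    exact ⟨x, hx, hxy⟩
  obtain ⟨C', hC', hle, hsub⟩ := hν Good hGood hGoodν
  refine ⟨C', hC', hle, F, hFQ, hFc, fun y hy => ?_⟩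
  have := hsub hy
  rw [Set.mem_iUnion₂] at this
  obtain ⟨x, hx, hxy⟩ := this
  exact ⟨x, hx, hxy⟩

lemma eight_le_L (i : ℕ) : 8 ≤ L i := by
  have hP : 1 ≤ P i := by
    induction i with
    | zero => simp [P]
    | succ n ih =>
      rw [P_succ]
      apply Nat.mul_pos _ ih
      apply Finset.card_pos.2
      have := H_pos n
      obtain ⟨k, hk⟩ := Nat.exists_eq_succ_of_ne_zero this.ne'
      rw [hk, Node.ball]
      exact Finset.insert_nonempty _ _
  unfold L
  calc 8 = 2 ^ 3 := by norm_num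
    _ ≤ _ := Nat.pow_le_pow_right (by norm_num) (by omega)

/-- Selection of two incomparable elements, the first avoiding `b`, and restriction
to the cone above the first. -/
theorem task_select {C : ℕ → Finset Node} (hC : Cond C) (b : ℕ → Node) :
    ∃ (C' : ℕ → Finset Node) (t t2 : ℕ → Node), Cond C' ∧ Le C' C ∧ t ∈ star C ∧ t2 ∈ star C ∧
      (∀ i c, ¬ (Node.Anc (t i) c ∧ Node.Anc (t2 i) c)) ∧ (∀ i, ¬ Node.Anc (t i) (b i)) ∧
      (∀ x ∈ star C', ∀ᶠ i in Filter.atTop, Node.Anc (t i) (x i)) := by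
  classical
  -- coordinatewise statement
  have key : ∀ i, ∃ (D' : Finset Node) (t t2 : Node),
      (∀ c, ¬ (Node.Anc t c ∧ Node.Anc t2 c)) ∧ ¬ Node.Anc t (b i) ∧
      (∀ s : Node, 2 < Node.S s (C i) → t ∈ C i ∧ t2 ∈ C i ∧ D' ⊆ C i ∧ (∀ x ∈ D', Node.Anc t x) ∧
        Node.S s (C i) - 2 ≤ Node.S t D') := by
    intro i
    obtain ⟨s0, hs0⟩ := Node.exists_max (C i)
    by_cases hbig : 2 < Node.S s0 (C i)
    · obtain ⟨x, hx, y, hy, hxy, hSx, hSy⟩ := Node.exists_two hbig le_rfl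
      by_cases hxb : Node.Anc x (b i)
      · have hyb : ¬ Node.Anc y (b i) := fun h => hxy _ ⟨hxb, h⟩
        refine ⟨(C i).filter (Node.Anc y), y, x, fun c hc => hxy c ⟨hc.2, hc.1⟩, hyb, ?_⟩
        intro s hs
        refine ⟨hy, hx, Finset.filter_subset _ _, fun z hz => (Finset.mem_filter.1 hz).2, ?_⟩
        rw [Node.S_filter]
        linarith [hs0 s]
      · refine ⟨(C i).filter (Node.Anc x), x, y, hxy, hxb, ?_⟩
        intro s hs
        refine ⟨hx, hy, Finset.filter_subset _ _, fun z hz => (Finset.mem_filter.1 hz).2, ?_⟩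
        rw [Node.S_filter]
        linarith [hs0 s]
    · refine ⟨∅, Node.child true (b i), Node.child false (b i), ?_, ?_, ?_⟩
      · intro c hc
        exact Node.not_anc_both _ _ ⟨hc.2, hc.1⟩
      · exact Node.not_anc_child_self _ _
      · intro s hs
        exact absurd (hs.trans_le (hs0 s)) hbig
  choose D' t t2 h1 h2 h3 using key
  have hev : ∀ᶠ i in Filter.atTop, ∃ s : Node, 2 < Node.S s (C i) := by
    filter_upwards [hC 1] with i hi
    obtain ⟨_, s, hs⟩ := hi
    refine ⟨s, lt_of_lt_of_le ?_ hs⟩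
    have := eight_le_L i
    have : (8 : ℝ) ≤ L i := by exact_mod_cast this
    rw [pow_one]; linarith
  refine ⟨D', t, t2, ?_, ?_, ?_, ?_, h1, h2, ?_⟩
  · intro n
    filter_upwards [hC (n + 1)] with i hi
    obtain ⟨hball, s, hs⟩ := hi
    have hL : (8 : ℝ) ≤ L i := by exact_mod_cast eight_le_L i
    have hLn : (1 : ℝ) ≤ (L i : ℝ) ^ n := one_le_pow₀ (by linarith)
    have hge : (8 : ℝ) * (L i : ℝ) ^ n ≤ (L i : ℝ) ^ (n + 1) := by
      rw [pow_succ, mul_comm]
      exact mul_le_mul_of_nonneg_left hL (by positivity)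
    have h2s : 2 < Node.S s (C i) := by linarith
    obtain ⟨_, _, hsub, _, hS⟩ := h3 i s h2s
    exact ⟨hsub.trans hball, t i, by linarith⟩
  · filter_upwards [hev] with i hi
    obtain ⟨s, hs⟩ := hi
    exact (h3 i s hs).2.2.1
  · change ∀ᶠ i in Filter.atTop, t i ∈ C i
    filter_upwards [hev] with i hi
    obtain ⟨s, hs⟩ := hi
    exact (h3 i s hs).1
  · change ∀ᶠ i in Filter.atTop, t2 i ∈ C i
    filter_upwards [hev] with i hi
    obtain ⟨s, hs⟩ := hi
    exact (h3 i s hs).2.1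
  · intro x hx
    filter_upwards [hev, hx] with i hi hxi
    obtain ⟨s, hs⟩ := hi
    exact (h3 i s hs).2.2.2.1 _ hxi

/-- The order used on the small set: in column `k`, eventually `x i` extends `t i`. -/
def Below (col : ℕ → ℕ) (k : ℕ) (x t : ℕ → Node) : Prop :=
  ∀ᶠ i in Filter.atTop, col i = k → Node.Anc (t i) (x i)

/-- One step of the construction. -/
theorem step (col : ℕ → ℕ) {C : ℕ → Finset Node} (hC : Cond C)
    (B1 : ℕ → ℕ → Set (ℕ → Node)) (hB1 : ∀ n m, MeasurableSet (B1 n m))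
    (B2 : ℕ → Set (ℕ → Node)) (hB2 : ∀ m, MeasurableSet (B2 m))
    (b : ℕ → Node) (g : ℕ → ℕ) :
    ∃ (C' : ℕ → Finset Node) (X0 Y0 : Set (ℕ → Node)), Cond C' ∧ Le C' C ∧
      X0.Countable ∧ Y0.Countable ∧ X0 ⊆ star C ∧ Y0 ⊆ star C ∧
      (∃ h : ℕ → ℕ, ∀ y ∈ star C', ∀ᶠ n in Filter.atTop,
        (∀ᶠ m in Filter.atTop, y ∈ B1 n m) → ∀ m, h n ≤ m → y ∈ B1 n m) ∧
      ((∃ x ∈ X0, ∃ y ∈ X0, ¬ (∀ᶠ m in Filter.atTop, x ∈ B2 m → y ∈ B2 m) ∧
        ¬ (∀ᶠ m in Filter.atTop, y ∈ B2 m → x ∈ B2 m)) ∨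
       (∀ y ∈ star C', ∃ x ∈ X0, ∀ᶠ m in Filter.atTop, x ∈ B2 m → y ∈ B2 m)) ∧
      (∃ t ∈ Y0, ∀ i, ¬ Node.Anc (t i) (b i)) ∧
      (∃ y ∈ Y0, ∃ z ∈ Y0, ∀ i, i < g (col i) → ∀ c, ¬ (Node.Anc (y i) c ∧ Node.Anc (z i) c)) ∧
      (∀ u ∈ Y0, ∀ x ∈ star C', ∀ k, Below col k x u) ∧
      (∀ u ∈ Y0, ∀ v ∈ Y0, ∀ k, Below col k u v ∨ Below col k v u) := by
  classical
  -- task 1
  obtain ⟨C1, hC1, hle1, h, hh⟩ := task_bound hC B1 hB1
  -- task 2
  obtain ⟨C2, hC2, hle2, X0, hX0c, hX0C, hX0⟩ :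
      ∃ C2 : ℕ → Finset Node, Cond C2 ∧ Le C2 C1 ∧ ∃ X0 : Set (ℕ → Node), X0.Countable ∧
        X0 ⊆ star C ∧
        ((∃ x ∈ X0, ∃ y ∈ X0, ¬ (∀ᶠ m in Filter.atTop, x ∈ B2 m → y ∈ B2 m) ∧
        ¬ (∀ᶠ m in Filter.atTop, y ∈ B2 m → x ∈ B2 m)) ∨
       (∀ y ∈ star C2, ∃ x ∈ X0, ∀ᶠ m in Filter.atTop, x ∈ B2 m → y ∈ B2 m)) := by
    by_cases htot : ∀ x ∈ star C1, ∀ y ∈ star C1, (∀ᶠ m in Filter.atTop, x ∈ B2 m → y ∈ B2 m) ∨
      (∀ᶠ m in Filter.atTop, y ∈ B2 m → x ∈ B2 m)
    · obtain ⟨C2, hC2, hle2, F, hFC, hFc, hF⟩ := task_linear hC1 B2 hB2 htot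
      exact ⟨C2, hC2, hle2, F, hFc, hFC.trans (star_mono hle1), Or.inr hF⟩
    · push Not at htot
      obtain ⟨x, hx, y, hy, hxy, hyx⟩ := htot
      refine ⟨C1, hC1, Le.refl C1, {x, y}, ?_, ?_, Or.inl ⟨x, by simp, y, by simp, ?_, ?_⟩⟩
      · exact (Set.countable_singleton y).insert x
      · intro z hz
        rcases hz with rfl | hz
        · exact star_mono hle1 hx
        · rw [Set.mem_singleton_iff] at hz
          rw [hz]; exact star_mono hle1 hy
      · intro hev
        obtain ⟨m, hm1, hm2⟩ := (hxy.and_eventually hev).exists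
        exact hm1.2 (hm2 hm1.1)
      · intro hev
        obtain ⟨m, hm1, hm2⟩ := (hyx.and_eventually hev).exists
        exact hm1.2 (hm2 hm1.1)
  -- task 3
  obtain ⟨C3, t, -, hC3, hle3, htC2, -, -, htb, htC3⟩ := task_select hC2 b
  -- task 4
  obtain ⟨C4, p, p2, hC4, hle4, hpC3, hp2C3, hpp2, -, hpC4⟩ := task_select hC3 (fun _ => default)
  let z : ℕ → Node := fun i => if i < g (col i) then p2 i else p i
  have hzC3 : z ∈ star C3 := by
    change ∀ᶠ i in Filter.atTop, z i ∈ C3 i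
    filter_upwards [hpC3, hp2C3] with i h1 h2
    by_cases hi : i < g (col i)
    · simp only [z, if_pos hi]; exact h2
    · simp only [z, if_neg hi]; exact h1
  have hzp : ∀ k, ∀ᶠ i in Filter.atTop, col i = k → z i = p i := by
    intro k
    filter_upwards [Filter.eventually_ge_atTop (g k)] with i hi hik
    simp only [z]
    rw [if_neg]
    rw [hik]; omega
  refine ⟨C4, X0, {t, p, z}, hC4, ((hle4.trans hle3).trans hle2).trans hle1, hX0c, ?_, hX0C, ?_,
    ⟨h, ?_⟩, ?_, ⟨t, by simp, htb⟩, ⟨p, by simp, z, by simp, ?_⟩, ?_, ?_⟩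
  · exact ((Set.countable_singleton z).insert p).insert t
  · intro u hu
    rcases hu with rfl | rfl | hu
    · exact star_mono (hle2.trans hle1) htC2
    · exact star_mono ((hle3.trans hle2).trans hle1) hpC3
    · rw [Set.mem_singleton_iff] at hu
      rw [hu]; exact star_mono ((hle3.trans hle2).trans hle1) hzC3
  · intro y hy
    exact hh y (star_mono ((hle4.trans hle3).trans hle2) hy)
  · rcases hX0 with hX0 | hX0
    · exact Or.inl hX0
    · exact Or.inr fun y hy => hX0 y (star_mono (hle4.trans hle3) hy)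
  · intro i hi c hc
    apply hpp2 i c
    simp only [z, if_pos hi] at hc
    exact hc
  · intro u hu x hx k
    rcases hu with rfl | rfl | hu
    · filter_upwards [htC3 x (star_mono hle4 hx)] with i hi _
      exact hi
    · filter_upwards [hpC4 x hx] with i hi _
      exact hi
    · rw [Set.mem_singleton_iff] at hu
      subst hu
      filter_upwards [hpC4 x hx, hzp k] with i hi hi2 hik
      rw [hi2 hik]; exact hi
  · have ht : ∀ x ∈ star C3, ∀ k, Below col k x t := by
      intro x hx k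
      filter_upwards [htC3 x hx] with i hi _
      exact hi
    have hrefl : ∀ (x : ℕ → Node) (k : ℕ), Below col k x x := by
      intro x k
      exact Filter.Eventually.of_forall fun i _ => Node.anc_refl _
    have hpz : ∀ k, Below col k p z := by
      intro k
      filter_upwards [hzp k] with i hi hik
      rw [hi hik]; exact Node.anc_refl _
    have hzp' : ∀ k, Below col k z p := by
      intro k
      filter_upwards [hzp k] with i hi hik
      rw [hi hik]; exact Node.anc_refl _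
    intro u hu v hv k
    have hmem : ∀ w ∈ ({t, p, z} : Set (ℕ → Node)), w = t ∨ w = p ∨ w = z := by
      intro w hw
      simpa using hw
    rcases hmem u hu with rfl | rfl | rfl <;> rcases hmem v hv with rfl | rfl | rfl
    · exact Or.inl (hrefl _ _)
    · exact Or.inr (ht _ hpC3 k)
    · exact Or.inr (ht _ hzC3 k)
    · exact Or.inl (ht _ hpC3 k)
    · exact Or.inl (hrefl _ _)
    · exact Or.inl (hpz k)
    · exact Or.inl (ht _ hzC3 k)
    · exact Or.inl (hzp' k)
    · exact Or.inl (hrefl _ _)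

end Pool.Agent.Lib.MP_d80832_gt
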