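import Pool.Agent.Lib.MP_d80832_gt.Tasks

set_option autoImplicit false

/-!
Transfinite recursion of length omega one under CH.
-/

namespace Pool.Agent.Lib.MP_d80832_gt

open Finset MeasureTheory

lemma cond_ball : Cond (fun i => Node.ball (H i)) := by
  intro n
  filter_upwards [Filter.eventually_ge_atTop n] with i hi
  refine ⟨subset_rfl, default, ?_⟩
  rw [Node.S_root_ball]
  unfold H
  push_cast
  exact pow_le_pow_right₀ (by exact_mod_cast L_pos i) hi

/-- Diagonalisation: decreasing sequences of conditions have lower bounds. -/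
lemma exists_lower_seq (g : ℕ → ℕ → Finset Node) (hg : ∀ n, Cond (g n))
    (hdec : ∀ n, Le (g (n + 1)) (g n)) : ∃ C, Cond C ∧ ∀ n, Le C (g n) := by
  classical
  let Q : ℕ → ℕ → Prop := fun m i => g m i ⊆ Node.ball (H i) ∧
    (∃ t, (L i : ℝ) ^ m ≤ Node.S t (g m i)) ∧ ∀ j < m, g m i ⊆ g j i
  have hQ : ∀ m, ∀ᶠ i in Filter.atTop, Q m i := by
    intro m
    have h1 : ∀ᶠ i in Filter.atTop, ∀ j < m, g m i ⊆ g j i := by
      induction m with
      | zero => exact Filter.Eventually.of_forall fun i j hj => absurd hj (by omega)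
      | succ m ih =>
        filter_upwards [ih, hdec m] with i hi hi' j hj
        rcases Nat.lt_succ_iff_lt_or_eq.1 hj with hj | rfl
        · exact hi'.trans (hi j hj)
        · exact hi'
    filter_upwards [hg m m, h1] with i hi hi'
    exact ⟨hi.1, hi.2, hi'⟩
  choose k hk using fun m => Filter.eventually_atTop.1 (hQ m)
  let N : ℕ → ℕ := fun i => Nat.findGreatest (fun m => k m ≤ i) i
  have hNQ : ∀ i, k 0 ≤ i → Q (N i) i := by
    intro i hi
    apply hk
    exact Nat.findGreatest_spec (P := fun m => k m ≤ i) (Nat.zero_le i) hi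
  have hNge : ∀ m i, k m ≤ i → m ≤ i → m ≤ N i := by
    intro m i h1 h2
    exact Nat.le_findGreatest h2 h1
  refine ⟨fun i => g (N i) i, ?_, ?_⟩
  · intro n
    filter_upwards [Filter.eventually_ge_atTop (k 0), Filter.eventually_ge_atTop (k n),
      Filter.eventually_ge_atTop n] with i h0 h1 h2
    obtain ⟨hball, ⟨t, ht⟩, _⟩ := hNQ i h0
    refine ⟨hball, t, le_trans ?_ ht⟩
    exact pow_le_pow_right₀ (by exact_mod_cast L_pos i) (hNge n i h1 h2)
  · intro n
    filter_upwards [Filter.eventually_ge_atTop (k 0), Filter.eventually_ge_atTop (k n),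
      Filter.eventually_ge_atTop n] with i h0 h1 h2
    obtain ⟨_, _, hsub⟩ := hNQ i h0
    rcases (hNge n i h1 h2).lt_or_eq with h | h
    · exact hsub n h
    · rw [← h]

/-- Countable chains of conditions have lower bounds. -/
lemma exists_lower (s : Set (ℕ → Finset Node)) (hs : s.Countable) (hcond : ∀ A ∈ s, Cond A)
    (hchain : ∀ A ∈ s, ∀ B ∈ s, Le A B ∨ Le B A) : ∃ C, Cond C ∧ ∀ A ∈ s, Le C A := by
  classical
  rcases s.eq_empty_or_nonempty with rfl | hne
  · exact ⟨_, cond_ball, by simp⟩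
  obtain ⟨f, hf⟩ := hs.exists_eq_range hne
  have hfs : ∀ n, f n ∈ s := fun n => hf ▸ Set.mem_range_self n
  let g : ℕ → ℕ → Finset Node := fun n => Nat.rec (f 0)
    (fun n A => if Le (f (n + 1)) A then f (n + 1) else A) n
  have hg0 : g 0 = f 0 := rfl
  have hgs : ∀ n, g (n + 1) = if Le (f (n + 1)) (g n) then f (n + 1) else g n := fun n => rfl
  have hgmem : ∀ n, g n ∈ s := by
    intro n
    induction n with
    | zero => rw [hg0]; exact hfs 0
    | succ n ih =>
      rw [hgs]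
      split_ifs
      · exact hfs _
      · exact ih
  have hgdec : ∀ n, Le (g (n + 1)) (g n) := by
    intro n
    rw [hgs]
    split_ifs with h
    · exact h
    · exact Le.refl _
  have hgf : ∀ n, Le (g n) (f n) := by
    intro n
    cases n with
    | zero => rw [hg0]; exact Le.refl _
    | succ n =>
      rw [hgs]
      split_ifs with h
      · exact Le.refl _
      · rcases hchain _ (hfs (n + 1)) _ (hgmem n) with h' | h'
        · exact absurd h' h
        · exact h'
  obtain ⟨C, hC, hCg⟩ := exists_lower_seq g (fun n => hcond _ (hgmem n)) hgdec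
  refine ⟨C, hC, ?_⟩
  intro A hA
  rw [hf] at hA
  obtain ⟨n, rfl⟩ := hA
  exact (hCg n).trans (hgf n)

/-- Transfinite recursion. -/
theorem exists_tower {Ω : Type} [LinearOrder Ω] [WellFoundedLT Ω]
    (hc : ∀ a : Ω, (Set.Iio a).Countable)
    (Φ : Ω → (ℕ → Finset Node) → (ℕ → Finset Node) → Prop)
    (hΦ : ∀ a C, Cond C → ∃ C', Cond C' ∧ Le C' C ∧ Φ a C C') :
    ∃ q p : Ω → ℕ → Finset Node, (∀ a, Cond (q a) ∧ Cond (p a) ∧ Le (p a) (q a) ∧
      Φ a (q a) (p a)) ∧ ∀ a, ∀ b < a, Le (q a) (p b) := by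
  classical
  let T := (ℕ → Finset Node) × (ℕ → Finset Node)
  let F : (a : Ω) → ((b : Ω) → b < a → T) → T := fun a ih =>
    if h : ∃ q, Cond q ∧ ∀ b (hb : b < a), Le q (ih b hb).2 then
      if h2 : ∃ C', Cond C' ∧ Le C' h.choose ∧ Φ a h.choose C' then (h.choose, h2.choose)
      else (h.choose, h.choose)
    else (fun i => Node.ball (H i), fun i => Node.ball (H i))
  let R : Ω → T := (wellFounded_lt (α := Ω)).fix F
  have hR : ∀ a, R a = F a (fun b _ => R b) := fun a => (wellFounded_lt (α := Ω)).fix_eq F a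
  have key : ∀ a, (Cond (R a).1 ∧ Cond (R a).2 ∧ Le (R a).2 (R a).1 ∧ Φ a (R a).1 (R a).2) ∧
      ∀ b < a, Le (R a).1 (R b).2 := by
    intro a
    induction a using (wellFounded_lt (α := Ω)).induction with
    | _ a ih =>
      have hex : ∃ q, Cond q ∧ ∀ b (hb : b < a), Le q (R b).2 := by
        obtain ⟨C, hC, hCl⟩ := exists_lower ((fun b => (R b).2) '' Set.Iio a) ((hc a).image _) (by
            rintro A ⟨b, hb, rfl⟩
            exact (ih b hb).1.2.1) (by
            rintro A ⟨b, hb, rfl⟩ B ⟨c, hcc, rfl⟩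
            rcases lt_trichotomy b c with hbc | rfl | hbc
            · right
              exact (ih c hcc).1.2.2.1.trans ((ih c hcc).2 b hbc)
            · left; exact Le.refl _
            · left
              exact (ih b hb).1.2.2.1.trans ((ih b hb).2 c hbc))
        exact ⟨C, hC, fun b hb => hCl _ ⟨b, hb, rfl⟩⟩
      have hFa : F a (fun b _ => R b) = R a := (hR a).symm
      have h2 : ∃ C', Cond C' ∧ Le C' hex.choose ∧ Φ a hex.choose C' :=
        hΦ a _ hex.choose_spec.1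
      have hval : R a = (hex.choose, h2.choose) := by
        rw [← hFa]
        simp only [F]
        rw [dif_pos hex, dif_pos h2]
      rw [hval]
      exact ⟨⟨hex.choose_spec.1, h2.choose_spec.1, h2.choose_spec.2.1, h2.choose_spec.2.2⟩,
        hex.choose_spec.2⟩
  exact ⟨fun a => (R a).1, fun a => (R a).2, fun a => (key a).1, fun a => (key a).2⟩

/-- The two sets, as subsets of the sequence space. -/
theorem exists_sets (hCH : (Cardinal.aleph 1 : Cardinal.{0}) = Cardinal.continuum)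
    (col : ℕ → ℕ) :
    ∃ X Y : Set (ℕ → Node), Y ⊆ X ∧ X.Nonempty ∧
      (∀ B : ℕ → ℕ → Set (ℕ → Node), (∀ n m, MeasurableSet (B n m)) → ∃ h : ℕ → ℕ, ∀ y ∈ X,
        ∀ᶠ n in Filter.atTop, (∀ᶠ m in Filter.atTop, y ∈ B n m) → ∀ m, h n ≤ m → y ∈ B n m) ∧
      (∀ B : ℕ → Set (ℕ → Node), (∀ m, MeasurableSet (B m)) →
        (∀ x ∈ X, ∀ y ∈ X, (∀ᶠ m in Filter.atTop, x ∈ B m → y ∈ B m) ∨
          (∀ᶠ m in Filter.atTop, y ∈ B m → x ∈ B m)) →
        ∃ F : Set (ℕ → Node), F ⊆ X ∧ F.Countable ∧ ∀ y ∈ X, ∃ x ∈ F,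
          ∀ᶠ m in Filter.atTop, x ∈ B m → y ∈ B m) ∧
      (∀ b : ℕ → Node, ∃ t ∈ Y, ∀ i, ¬ Node.Anc (t i) (b i)) ∧
      (∀ g : ℕ → ℕ, ∃ y ∈ Y, ∃ z ∈ Y, ∀ i, i < g (col i) → ∀ c,
        ¬ (Node.Anc (y i) c ∧ Node.Anc (z i) c)) ∧
      (∀ u ∈ Y, ∀ v ∈ Y, ∀ k, Below col k u v ∨ Below col k v u) ∧
      (∀ y ∈ Y, ∀ᶠ i in Filter.atTop, y i ∈ Node.ball (H i)) := by
  classical
  let BS := {B : Set (ℕ → Node) // MeasurableSet B}
  let T := (ℕ → ℕ → BS) × (ℕ → BS) × (ℕ → Node) × (ℕ → ℕ)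
  -- cardinality
  have hBS : Cardinal.mk BS ≤ Cardinal.continuum := by
    obtain ⟨s, hs, hgen⟩ := MeasurableSpace.CountablyGenerated.isCountablyGenerated
      (α := ℕ → Node)
    have h1 : Cardinal.mk s ≤ Cardinal.continuum :=
      (Cardinal.le_aleph0_iff_set_countable.2 hs).trans Cardinal.aleph0_le_continuum
    have h2 := MeasurableSpace.cardinal_measurableSet_le_continuum h1
    rw [← hgen] at h2
    exact h2
  have hpow : ∀ (A : Type), Cardinal.mk A ≤ Cardinal.continuum →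
      Cardinal.mk (ℕ → A) ≤ Cardinal.continuum := by
    intro A hA
    rw [Cardinal.mk_arrow]
    simp only [Cardinal.lift_id, Cardinal.mk_nat]
    calc Cardinal.mk A ^ Cardinal.aleph0 ≤ Cardinal.continuum ^ Cardinal.aleph0 :=
          Cardinal.power_le_power_right hA
      _ = Cardinal.continuum := Cardinal.continuum_power_aleph0
  have hctbl : ∀ (A : Type) [Countable A], Cardinal.mk A ≤ Cardinal.continuum := fun A _ =>
    (Cardinal.mk_le_aleph0).trans Cardinal.aleph0_le_continuum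
  have hmul : ∀ A B : Type, Cardinal.mk A ≤ Cardinal.continuum →
      Cardinal.mk B ≤ Cardinal.continuum → Cardinal.mk (A × B) ≤ Cardinal.continuum := by
    intro A B hA hB
    rw [Cardinal.mk_prod]
    simp only [Cardinal.lift_id]
    calc Cardinal.mk A * Cardinal.mk B ≤ Cardinal.continuum * Cardinal.continuum :=
          mul_le_mul' hA hB
      _ = Cardinal.continuum := Cardinal.continuum_mul_self
  have hT : Cardinal.mk T ≤ Cardinal.continuum := by
    apply hmul
    · exact hpow _ (hpow _ hBS)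
    · apply hmul
      · exact hpow _ hBS
      · apply hmul
        · exact hpow _ (hctbl _)
        · exact hpow _ (hctbl _)
  let Ω : Type := (Cardinal.aleph 1 : Cardinal.{0}).ord.ToType
  have hΩ : Cardinal.mk Ω = Cardinal.aleph 1 := Cardinal.mk_ord_toType _
  have hcI : ∀ a : Ω, (Set.Iio a).Countable := by
    intro a
    have := Cardinal.mk_Iio_lt a (by rw [hΩ]; exact (Ordinal.type_toType _).symm)
    rw [hΩ] at this
    rw [Cardinal.lt_aleph_one_iff] at this
    exact Cardinal.le_aleph0_iff_set_countable.1 this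
  have hTΩ : Cardinal.mk T ≤ Cardinal.mk Ω := by rw [hΩ, hCH]; exact hT
  have hTne : Nonempty T := by
    have : Nonempty BS := ⟨⟨∅, MeasurableSet.empty⟩⟩
    infer_instance
  obtain ⟨e⟩ : Nonempty (T ↪ Ω) := hTΩ
  let task : Ω → T := Function.invFun e
  have htask : Function.Surjective task := Function.invFun_surjective e.injective
  -- the step relation
  let Φ : Ω → (ℕ → Finset Node) → (ℕ → Finset Node) → Prop := fun a C C' =>
    ∃ X0 Y0 : Set (ℕ → Node),
      X0.Countable ∧ Y0.Countable ∧ X0 ⊆ star C ∧ Y0 ⊆ star C ∧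
      (∃ h : ℕ → ℕ, ∀ y ∈ star C', ∀ᶠ n in Filter.atTop,
        (∀ᶠ m in Filter.atTop, y ∈ ((task a).1 n m).1) → ∀ m, h n ≤ m →
          y ∈ ((task a).1 n m).1) ∧
      ((∃ x ∈ X0, ∃ y ∈ X0,
        ¬ (∀ᶠ m in Filter.atTop, x ∈ ((task a).2.1 m).1 → y ∈ ((task a).2.1 m).1) ∧
        ¬ (∀ᶠ m in Filter.atTop, y ∈ ((task a).2.1 m).1 → x ∈ ((task a).2.1 m).1)) ∨
       (∀ y ∈ star C', ∃ x ∈ X0,
        ∀ᶠ m in Filter.atTop, x ∈ ((task a).2.1 m).1 → y ∈ ((task a).2.1 m).1)) ∧
      (∃ t ∈ Y0, ∀ i, ¬ Node.Anc (t i) ((task a).2.2.1 i)) ∧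
      (∃ y ∈ Y0, ∃ z ∈ Y0, ∀ i, i < (task a).2.2.2 (col i) →
        ∀ c, ¬ (Node.Anc (y i) c ∧ Node.Anc (z i) c)) ∧
      (∀ u ∈ Y0, ∀ x ∈ star C', ∀ k, Below col k x u) ∧
      (∀ u ∈ Y0, ∀ v ∈ Y0, ∀ k, Below col k u v ∨ Below col k v u)
  have hΦ : ∀ a C, Cond C → ∃ C', Cond C' ∧ Le C' C ∧ Φ a C C' := by
    intro a C hC
    obtain ⟨C', X0, Y0, hC', hle, h⟩ := step col hC
      (fun n m => ((task a).1 n m).1) (fun n m => ((task a).1 n m).2)
      (fun m => ((task a).2.1 m).1) (fun m => ((task a).2.1 m).2)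
      (task a).2.2.1 (task a).2.2.2
    exact ⟨C', hC', hle, X0, Y0, h⟩
  obtain ⟨q, p, hqp, hlt⟩ := exists_tower hcI Φ hΦ
  choose X0 Y0 hX0c hY0c hX0 hY0 hbd hlin havoid hpair hbelow hchain using
    fun a => (hqp a).2.2.2
  let Z : Set (ℕ → Node) := ⋃ a, (X0 a ∪ Y0 a)
  have hlater : ∀ a b, a < b → star (q b) ⊆ star (p a) := fun a b hab => star_mono (hlt b a hab)
  have hZmem : ∀ a, X0 a ∪ Y0 a ⊆ star (q a) := fun a => Set.union_subset (hX0 a) (hY0 a)
  -- the countable past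
  have hpast : ∀ a, (⋃ b ∈ Set.Iic a, (X0 b ∪ Y0 b)).Countable := by
    intro a
    have hIic : (Set.Iic a).Countable := by
      rw [← Set.Iio_insert]
      exact (hcI a).insert a
    exact hIic.biUnion fun b _ => (hX0c b).union (hY0c b)
  have hsplit : ∀ a, ∀ z ∈ Z, z ∈ (⋃ b ∈ Set.Iic a, (X0 b ∪ Y0 b)) ∨ z ∈ star (p a) := by
    intro a z hz
    obtain ⟨b, hb⟩ := Set.mem_iUnion.1 hz
    rcases le_or_gt b a with hba | hba
    · left
      rw [Set.mem_iUnion₂]
      exact ⟨b, hba, hb⟩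
    · right
      exact hlater a b hba (hZmem b hb)
  have hYZ : (⋃ a, Y0 a) ⊆ Z := Set.iUnion_mono fun a => Set.subset_union_right
  refine ⟨Z, ⋃ a, Y0 a, hYZ, ?_, ?_, ?_, ?_, ?_, ?_, ?_⟩
  · -- nonempty
    obtain ⟨a, _⟩ := htask (Classical.arbitrary T)
    obtain ⟨t, ht, _⟩ := havoid a
    exact ⟨t, hYZ (Set.mem_iUnion.2 ⟨a, ht⟩)⟩
  · -- bounding
    intro B hB
    obtain ⟨a, ha⟩ := htask (fun n m => ⟨B n m, hB n m⟩, fun _ => ⟨∅, MeasurableSet.empty⟩,
      fun _ => default, fun _ => 0)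
    obtain ⟨h, hh⟩ := hbd a
    have hB' : ∀ n m, ((task a).1 n m).1 = B n m := by intro n m; rw [ha]
    simp only [hB'] at hh
    -- enumerate the past
    obtain ⟨w, hw⟩ := Set.countable_iff_exists_subset_range.1 (hpast a)
    let thr : ℕ → ℕ → ℕ := fun j n =>
      if hev : ∀ᶠ m in Filter.atTop, w j ∈ B n m then (Filter.eventually_atTop.1 hev).choose else 0
    have hthr : ∀ j n, (∀ᶠ m in Filter.atTop, w j ∈ B n m) → ∀ m, thr j n ≤ m → w j ∈ B n m := by
      intro j n hev m hm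
      have h1 : thr j n = (Filter.eventually_atTop.1 hev).choose := by
        simp only [thr]
        rw [dif_pos hev]
      rw [h1] at hm
      exact (Filter.eventually_atTop.1 hev).choose_spec m hm
    refine ⟨fun n => h n + ∑ j ∈ range (n + 1), thr j n, ?_⟩
    intro y hy
    rcases hsplit a y hy with hy' | hy'
    · obtain ⟨j, rfl⟩ := hw hy'
      filter_upwards [Filter.eventually_ge_atTop j] with n hn hev m hm
      apply hthr j n hev
      have h1 : thr j n ≤ ∑ j ∈ range (n + 1), thr j n :=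
        Finset.single_le_sum (f := fun j => thr j n) (fun _ _ => Nat.zero_le _)
          (Finset.mem_range.2 (by omega))
      omega
    · filter_upwards [hh y hy'] with n hn hev m hm
      exact hn hev m (by omega)
  · -- linear families
    intro B hB htot
    obtain ⟨a, ha⟩ := htask (fun n m => ⟨∅, MeasurableSet.empty⟩, fun m => ⟨B m, hB m⟩,
      fun _ => default, fun _ => 0)
    have hB' : ∀ m, ((task a).2.1 m).1 = B m := by intro m; rw [ha]
    have hl := hlin a
    simp only [hB'] at hl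
    have hXZ : X0 a ⊆ Z := fun x hx => Set.mem_iUnion.2 ⟨a, Or.inl hx⟩
    rcases hl with ⟨x, hx, y, hy, hxy, hyx⟩ | hl
    · rcases htot x (hXZ hx) y (hXZ hy) with h | h
      · exact absurd h hxy
      · exact absurd h hyx
    · refine ⟨⋃ b ∈ Set.Iic a, (X0 b ∪ Y0 b), ?_, hpast a, ?_⟩
      · intro z hz
        rw [Set.mem_iUnion₂] at hz
        obtain ⟨b, _, hb⟩ := hz
        exact Set.mem_iUnion.2 ⟨b, hb⟩
      · intro y hy
        rcases hsplit a y hy with hy' | hy'
        · exact ⟨y, hy', Filter.Eventually.of_forall fun m hm => hm⟩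
        · obtain ⟨x, hx, hxy⟩ := hl y hy'
          refine ⟨x, ?_, hxy⟩
          rw [Set.mem_iUnion₂]
          exact ⟨a, Set.mem_Iic.2 le_rfl, Or.inl hx⟩
  · intro b
    obtain ⟨a, ha⟩ := htask (fun n m => ⟨∅, MeasurableSet.empty⟩, fun _ => ⟨∅, MeasurableSet.empty⟩,
      b, fun _ => 0)
    obtain ⟨t, ht, htb⟩ := havoid a
    rw [ha] at htb
    exact ⟨t, Set.mem_iUnion.2 ⟨a, ht⟩, htb⟩
  · intro g
    obtain ⟨a, ha⟩ := htask (fun n m => ⟨∅, MeasurableSet.empty⟩, fun _ => ⟨∅, MeasurableSet.empty⟩,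
      fun _ => default, g)
    obtain ⟨y, hy, z, hz, h⟩ := hpair a
    rw [ha] at h
    exact ⟨y, Set.mem_iUnion.2 ⟨a, hy⟩, z, Set.mem_iUnion.2 ⟨a, hz⟩, h⟩
  · intro u hu v hv k
    obtain ⟨a, ha⟩ := Set.mem_iUnion.1 hu
    obtain ⟨b, hb⟩ := Set.mem_iUnion.1 hv
    rcases lt_trichotomy a b with hab | rfl | hab
    · right
      exact hbelow a u ha v (hlater a b hab (hY0 b hb)) k
    · exact hchain a u ha v hb k
    · left
      exact hbelow b v hb u (hlater b a hab (hY0 a ha)) k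
  · intro y hy
    obtain ⟨a, ha⟩ := Set.mem_iUnion.1 hy
    have h1 := hY0 a ha
    filter_upwards [(hqp a).1 0, h1] with i hi hi'
    exact hi.1 hi'

end Pool.Agent.Lib.MP_d80832_gt
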