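import Mathlib

set_option autoImplicit false

/-!
Binary tree nodes, relative weights and the norm used for the conditions.
-/

namespace Pool.Agent.Lib.MP_d80832_gt

/-- Nodes of the full binary tree; the root is the empty list, the children of `t` are `b :: t`. -/
def Node : Type := List Bool

namespace Node

instance : DecidableEq Node := inferInstanceAs (DecidableEq (List Bool))
instance : Countable Node := inferInstanceAs (Countable (List Bool))
instance : Inhabited Node := ⟨([] : List Bool)⟩
instance : TopologicalSpace Node := ⊥
instance : DiscreteTopology Node := ⟨rfl⟩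
instance : MeasurableSpace Node := ⊤
instance : DiscreteMeasurableSpace Node := ⟨fun _ => trivial⟩
instance : BorelSpace Node := ⟨by
  have : borel Node = ⊤ := borel_eq_top_of_discrete
  rw [this]; rfl⟩

/-- length of a node -/
def len (x : Node) : ℕ := List.length x

/-- child of a node -/
def child (b : Bool) (t : Node) : Node := List.cons b t

/-- `Anc t x`: the node `x` extends the node `t`. -/
def Anc (t x : Node) : Prop := List.IsSuffix t x

noncomputable instance (t x : Node) : Decidable (Anc t x) := Classical.propDecidable _

lemma anc_refl (t : Node) : Anc t t := List.suffix_rfl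

lemma anc_trans {a b c : Node} (h : Anc a b) (h' : Anc b c) : Anc a c := List.IsSuffix.trans h h'

lemma anc_len {t x : Node} (h : Anc t x) : len t ≤ len x := List.IsSuffix.length_le h

lemma len_child (b : Bool) (t : Node) : len (child b t) = len t + 1 := rfl

lemma anc_child (b : Bool) (t : Node) : Anc t (child b t) := List.suffix_cons b t

lemma list_suffix_split (t x : List Bool) (h : t <:+ x) :
    x = t ∨ (List.cons false t) <:+ x ∨ (List.cons true t) <:+ x := by
  obtain ⟨l, hl⟩ := h
  rcases List.eq_nil_or_concat l with rfl | ⟨l', b, rfl⟩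
  · left; simpa using hl.symm
  · right
    have h1 : l' ++ (List.cons b t : List Bool) = x := by
      rw [← hl, List.concat_eq_append]; simp
    cases b
    · left; exact ⟨l', h1⟩
    · right; exact ⟨l', h1⟩

lemma anc_iff (t x : Node) :
    Anc t x ↔ x = t ∨ Anc (child false t) x ∨ Anc (child true t) x := by
  constructor
  · intro h
    exact list_suffix_split t x h
  · rintro (rfl | h | h)
    · exact anc_refl _
    · exact anc_trans (anc_child _ _) h
    · exact anc_trans (anc_child _ _) h

lemma not_anc_both (t x : Node) : ¬ (Anc (child false t) x ∧ Anc (child true t) x) := by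
  rintro ⟨h1, h2⟩
  have h := List.suffix_of_suffix_length_le h1 h2 (le_refl (List.length t + 1))
  have h3 := h.eq_of_length (rfl : List.length t + 1 = List.length t + 1)
  have h4 := (List.cons.inj h3).1
  simp at h4

lemma not_anc_child_self (b : Bool) (t : Node) : ¬ Anc (child b t) t := by
  intro h
  have := anc_len h
  rw [len_child] at this
  omega

/-- relative weight -/
noncomputable def w (t x : Node) : ℝ := if Anc t x then (1 / 2 : ℝ) ^ (len x - len t) else 0

lemma w_nonneg (t x : Node) : 0 ≤ w t x := by
  unfold w; split_ifs <;> positivity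

lemma w_le_one (t x : Node) : w t x ≤ 1 := by
  unfold w; split_ifs
  · exact pow_le_one₀ (by norm_num) (by norm_num)
  · norm_num

lemma w_self (t : Node) : w t t = 1 := by
  unfold w; rw [if_pos (anc_refl t)]; simp

lemma w_rec (t x : Node) :
    w t x = (if x = t then 1 else 0) + 1 / 2 * (w (child false t) x + w (child true t) x) := by
  by_cases hx : x = t
  · subst hx
    rw [w_self, if_pos rfl]
    simp [w, not_anc_child_self]
  · rw [if_neg hx]
    by_cases h0 : Anc (child false t) x
    · have h1 : ¬ Anc (child true t) x := fun h => not_anc_both t x ⟨h0, h⟩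
      have ht : Anc t x := (anc_iff t x).2 (Or.inr (Or.inl h0))
      have hl := anc_len h0
      rw [len_child] at hl
      unfold w
      rw [if_pos ht, if_pos h0, if_neg h1, len_child]
      have : len x - len t = (len x - (len t + 1)) + 1 := by omega
      rw [this, pow_succ]; ring
    · by_cases h1 : Anc (child true t) x
      · have ht : Anc t x := (anc_iff t x).2 (Or.inr (Or.inr h1))
        have hl := anc_len h1
        rw [len_child] at hl
        unfold w
        rw [if_pos ht, if_neg h0, if_pos h1, len_child]
        have : len x - len t = (len x - (len t + 1)) + 1 := by omega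
        rw [this, pow_succ]; ring
      · have ht : ¬ Anc t x := by
          rw [anc_iff]; simp [hx, h0, h1]
        unfold w
        rw [if_neg ht, if_neg h0, if_neg h1]; simp

/-- relative measure of a finite set of nodes above `t` -/
noncomputable def S (t : Node) (C : Finset Node) : ℝ := ∑ x ∈ C, w t x

lemma S_nonneg (t : Node) (C : Finset Node) : 0 ≤ S t C :=
  Finset.sum_nonneg fun x _ => w_nonneg t x

lemma S_mono (t : Node) {C D : Finset Node} (h : C ⊆ D) : S t C ≤ S t D :=
  Finset.sum_le_sum_of_subset_of_nonneg h fun x _ _ => w_nonneg t x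

lemma S_rec (t : Node) (C : Finset Node) :
    S t C = (if t ∈ C then 1 else 0) + 1 / 2 * (S (child false t) C + S (child true t) C) := by
  unfold S
  rw [← Finset.sum_add_distrib, Finset.mul_sum]
  rw [Finset.sum_congr rfl fun x _ => w_rec t x]
  rw [Finset.sum_add_distrib]
  congr 1
  rw [Finset.sum_ite_eq' C t]

lemma S_eq_zero (t : Node) (C : Finset Node) (h : ∀ x ∈ C, ¬ Anc t x) : S t C = 0 := by
  unfold S
  apply Finset.sum_eq_zero
  intro x hx
  unfold w
  rw [if_neg (h x hx)]

lemma S_pos_exists {t : Node} {C : Finset Node} (h : 0 < S t C) : ∃ x ∈ C, Anc t x := by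
  by_contra hcon
  push Not at hcon
  rw [S_eq_zero t C hcon] at h
  exact lt_irrefl _ h

/-- the maximal length of an element of `C` bounds the length of nodes of positive measure -/
lemma len_le_of_S_pos {t : Node} {C : Finset Node} (h : 0 < S t C) : len t ≤ C.sup len := by
  obtain ⟨x, hx, hax⟩ := S_pos_exists h
  exact (anc_len hax).trans (Finset.le_sup (f := len) hx)

/-- Fact 1: above a node of measure `≥ s` there is an element of `C` of measure `≥ s`. -/
lemma exists_mem_S_ge {t : Node} {C : Finset Node} {s : ℝ} (hs : 0 < s) (h : s ≤ S t C) :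
    ∃ x ∈ C, Anc t x ∧ s ≤ S x C := by
  -- induction on `C.sup len - len t`
  have key : ∀ n : ℕ, ∀ t : Node, C.sup len < len t + n → s ≤ S t C →
      ∃ x ∈ C, Anc t x ∧ s ≤ S x C := by
    intro n
    induction n with
    | zero =>
      intro t ht h
      have := len_le_of_S_pos (hs.trans_le h)
      omega
    | succ n ih =>
      intro t ht h
      by_cases htC : t ∈ C
      · exact ⟨t, htC, anc_refl t, h⟩
      · have hrec := S_rec t C
        rw [if_neg htC, zero_add] at hrec
        rcases le_or_gt s (S (child false t) C) with h0 | h0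
        · obtain ⟨x, hx, hax, hsx⟩ := ih (child false t) (by rw [len_child]; omega) h0
          exact ⟨x, hx, anc_trans (anc_child _ _) hax, hsx⟩
        · have h1 : s ≤ S (child true t) C := by linarith
          obtain ⟨x, hx, hax, hsx⟩ := ih (child true t) (by rw [len_child]; omega) h1
          exact ⟨x, hx, anc_trans (anc_child _ _) hax, hsx⟩
  exact key (C.sup len + 1) t (by omega) h

/-- there is a node of maximal measure -/
lemma exists_max (C : Finset Node) : ∃ t : Node, ∀ t', S t' C ≤ S t C := by
  by_cases h : ∃ t, 0 < S t C
  · obtain ⟨t0, ht0⟩ := h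
    -- by Fact 1 it suffices to maximise over C
    have hne : C.Nonempty := by
      obtain ⟨x, hx, _⟩ := S_pos_exists ht0
      exact ⟨x, hx⟩
    obtain ⟨t, htC, ht⟩ := Finset.exists_max_image C (fun t => S t C) hne
    refine ⟨t, fun t' => ?_⟩
    rcases (S_nonneg t' C).eq_or_lt with h0 | h0
    · rw [← h0]; exact S_nonneg t C
    · obtain ⟨x, hx, _, hsx⟩ := exists_mem_S_ge h0 le_rfl
      exact hsx.trans (ht x hx)
  · push Not at h
    exact ⟨default, fun t' => (h t').trans (S_nonneg _ _)⟩

/-- Fact 2: there are two incomparable elements of `C`, both of large measure. -/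
lemma exists_two {t : Node} {C : Finset Node} {M : ℝ} (hM : 2 < M) (h : M ≤ S t C) :
    ∃ x ∈ C, ∃ y ∈ C, (∀ b, ¬ (Anc x b ∧ Anc y b)) ∧ M - 2 ≤ S x C ∧ M - 2 ≤ S y C := by
  obtain ⟨t, ht⟩ := exists_max C
  have hMt : M ≤ S t C := h.trans (ht _)
  have hrec := S_rec t C
  have h0 := ht (child false t)
  have h1 := ht (child true t)
  have hite : (if t ∈ C then (1 : ℝ) else 0) ≤ 1 := by split_ifs <;> norm_num
  have h0' : M - 2 ≤ S (child false t) C := by linarith
  have h1' : M - 2 ≤ S (child true t) C := by linarith
  obtain ⟨x, hx, hax, hsx⟩ := exists_mem_S_ge (by linarith) h0'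
  obtain ⟨y, hy, hay, hsy⟩ := exists_mem_S_ge (by linarith) h1'
  refine ⟨x, hx, y, hy, ?_, hsx, hsy⟩
  rintro b ⟨hxb, hyb⟩
  exact not_anc_both t b ⟨anc_trans hax hxb, anc_trans hay hyb⟩

/-- restricting `C` to the cone above `x` does not change the measure above `x` -/
lemma S_filter (x : Node) (C : Finset Node) : S x (C.filter (Anc x)) = S x C := by
  unfold S
  rw [Finset.sum_filter]
  apply Finset.sum_congr rfl
  intro y _
  by_cases h : Anc x y
  · rw [if_pos h]
  · rw [if_neg h]; unfold w; rw [if_neg h]

/-- the set of nodes of length `< n` -/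
def ball : ℕ → Finset Node
  | 0 => ∅
  | n + 1 => insert (default : Node) ((ball n).image (child false) ∪ (ball n).image (child true))

lemma child_injective (b : Bool) : Function.Injective (child b) := by
  intro x y h
  exact (List.cons.inj h).2

lemma S_root_ball (n : ℕ) : S default (ball n) = n := by
  induction n with
  | zero => simp [ball, S]
  | succ n ih =>
    have hroot : ∀ x : Node, Anc default x := fun x => List.nil_suffix
    have hw : ∀ x : Node, w default x = (1 / 2 : ℝ) ^ (len x) := by
      intro x; unfold w; rw [if_pos (hroot x)]; rfl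
    have hS : ∀ C : Finset Node, S default C = ∑ x ∈ C, (1 / 2 : ℝ) ^ (len x) := by
      intro C; unfold S; exact Finset.sum_congr rfl fun x _ => hw x
    rw [hS] at ih ⊢
    unfold ball
    rw [Finset.sum_insert, Finset.sum_union, Finset.sum_image, Finset.sum_image]
    · have e : ∀ b : Bool, ∑ x ∈ ball n, (1 / 2 : ℝ) ^ (len (child b x)) = 1 / 2 * n := by
        intro b
        rw [← ih, Finset.mul_sum]
        apply Finset.sum_congr rfl
        intro x _
        rw [len_child, pow_succ]; ring
      rw [e, e]
      have : len (default : Node) = 0 := rfl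
      rw [this]; push_cast; ring
    · intro x _ y _ h; exact child_injective _ h
    · intro x _ y _ h; exact child_injective _ h
    · rw [Finset.disjoint_left]
      intro x hx hy
      rw [Finset.mem_image] at hx hy
      obtain ⟨a, _, rfl⟩ := hx
      obtain ⟨b, _, hb⟩ := hy
      have := (List.cons.inj hb).1
      simp at this
    · rw [Finset.mem_union, Finset.mem_image, Finset.mem_image]
      rintro (⟨a, _, ha⟩ | ⟨a, _, ha⟩)
      · exact List.cons_ne_nil _ _ ha
      · exact List.cons_ne_nil _ _ ha

end Node

end Pool.Agent.Lib.MP_d80832_gt
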